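import Mathlib
import Pool.Agent.H212R2.KLS.T1

/-!
# Brunn-Minkowski inequality in a finite dimensional space, root-free form
-/

set_option autoImplicit false

open MeasureTheory Set
open scoped ENNReal Pointwise

namespace Pool.Agent.K4H96.HS

variable {F : Type*} [NormedAddCommGroup F] [NormedSpace ℝ F] [FiniteDimensional ℝ F]
    [MeasurableSpace F] [BorelSpace F] (ν : Measure F) [ν.IsAddHaarMeasure]

include ν in
theorem bm_two (t : ℝ) (ht0 : 0 < t) (ht1 : t < 1) (A C D : Set F)
    (hA : IsCompact A) (hC : IsCompact C) (hD : IsCompact D)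
    (h : ∀ x ∈ A, ∀ y ∈ C, (1 - t) • x + t • y ∈ D) (v : ℝ≥0∞) (hvA : v ≤ ν A)
    (hvC : v ≤ ν C) : v ≤ ν D := by
  have hPL := Pool.Agent.H212R2.KLS.PL ν t ht0 ht1
    (A.indicator 1) (C.indicator 1)
    (D.indicator 1) (measurable_one.indicator hA.measurableSet)
    (measurable_one.indicator hC.measurableSet) (measurable_one.indicator hD.measurableSet) ?_
  · rw [lintegral_indicator_one hA.measurableSet, lintegral_indicator_one hC.measurableSet,
      lintegral_indicator_one hD.measurableSet] at hPL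
    refine le_trans ?_ hPL
    rcases eq_or_ne v 0 with rfl | hv0
    · exact zero_le
    · have hvt : v ≠ ∞ := ne_top_of_le_ne_top hC.measure_ne_top hvC
      calc v = v ^ (1 - t) * v ^ t := by
            rw [← ENNReal.rpow_add _ _ hv0 hvt]
            norm_num
        _ ≤ (ν A) ^ (1 - t) * (ν C) ^ t := by
            gcongr
  · intro x y
    by_cases hx : x ∈ A
    · by_cases hy : y ∈ C
      · rw [indicator_of_mem hx, indicator_of_mem hy, indicator_of_mem (h x hx y hy)]
        simp
      · rw [indicator_of_notMem hy, ENNReal.zero_rpow_of_pos ht0, mul_zero]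
        exact zero_le
    · rw [indicator_of_notMem hx, ENNReal.zero_rpow_of_pos (by linarith), zero_mul]
      exact zero_le

/-- Brunn-Minkowski, root-free -/
theorem bm_compact (A B : Set F) (hA : IsCompact A) (hB : IsCompact B) (n : ℕ)
    (hn : Module.finrank ℝ F = n)
    (a b : ℝ) (ha : 0 < a) (hb : 0 < b) (hVA : a ^ n ≤ ν.real A) (hVB : b ^ n ≤ ν.real B) :
    (a + b) ^ n ≤ ν.real (A + B) := by
  have smul_vol : ∀ (A : Set F), IsCompact A → ∀ (a s : ℝ), 0 < a → 0 < s → a ^ n ≤ ν.real A →
      ENNReal.ofReal (s ^ n) ≤ ν ((s / a) • A) := by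
    intro A hA a s ha hs h
    have hsa : 0 < s / a := div_pos hs ha
    rw [Measure.addHaar_smul, hn, abs_of_pos (pow_pos hsa n)]
    have h1 : ENNReal.ofReal (a ^ n) ≤ ν A :=
      ENNReal.ofReal_le_of_le_toReal h
    calc ENNReal.ofReal (s ^ n) = ENNReal.ofReal ((s / a) ^ n) * ENNReal.ofReal (a ^ n) := by
          rw [← ENNReal.ofReal_mul (pow_nonneg hsa.le n), ← mul_pow, div_mul_cancel₀ _ ha.ne']
      _ ≤ _ := by gcongr
  have hab : 0 < a + b := by linarith
  have h1 := bm_two ν (b / (a + b)) (div_pos hb hab) ((div_lt_one hab).mpr (by linarith))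
    (((a + b) / a) • A) (((a + b) / b) • B) (A + B) (hA.smul _) (hB.smul _) (hA.add hB) ?_
    (ENNReal.ofReal ((a + b) ^ n)) (smul_vol A hA a (a + b) ha hab hVA)
    (smul_vol B hB b (a + b) hb hab hVB)
  · have h2 := ENNReal.toReal_mono (hA.add hB).measure_ne_top h1
    rwa [ENNReal.toReal_ofReal (pow_nonneg hab.le n)] at h2
  · rintro _ ⟨x, hx, rfl⟩ _ ⟨y, hy, rfl⟩
    have e1 : (1 - b / (a + b)) • ((a + b) / a) • x = x := by
      rw [smul_smul]
      have : (1 - b / (a + b)) * ((a + b) / a) = 1 := by field_simp; ring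
      rw [this, one_smul]
    have e2 : (b / (a + b)) • ((a + b) / b) • y = y := by
      rw [smul_smul]
      have : (b / (a + b)) * ((a + b) / b) = 1 := by field_simp
      rw [this, one_smul]
    show (1 - b / (a + b)) • ((a + b) / a) • x + (b / (a + b)) • ((a + b) / b) • y ∈ A + B
    rw [e1, e2]
    exact Set.add_mem_add hx hy

end Pool.Agent.K4H96.HS
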