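import Mathlib

/-!
# Equalising weights of a power diagram (semi-discrete optimal transport, uniform masses)
-/

set_option autoImplicit false

open MeasureTheory Set Filter Topology

namespace Pool.Agent.K4H96.HS

variable {J X : Type*} [Fintype J] [Nonempty J] [MeasurableSpace X]

/-- cell of `j` in the power diagram of the functions `c` with the weights `w`, inside `K` -/
def cell (K : Set X) (c : J → X → ℝ) (w : J → ℝ) (j : J) : Set X :=
  {x ∈ K | ∀ l, c l x + w l ≤ c j x + w j}

/-- upper envelope -/
noncomputable def env (c : J → X → ℝ) (w : J → ℝ) (x : X) : ℝ :=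
  Finset.univ.sup' Finset.univ_nonempty (fun j => c j x + w j)

omit [MeasurableSpace X] in
theorem le_env (c : J → X → ℝ) (w : J → ℝ) (x : X) (j : J) : c j x + w j ≤ env c w x :=
  Finset.le_sup' (fun j => c j x + w j) (Finset.mem_univ j)

omit [MeasurableSpace X] in
theorem env_le (c : J → X → ℝ) (w : J → ℝ) (x : X) (t : ℝ) (h : ∀ j, c j x + w j ≤ t) :
    env c w x ≤ t :=
  Finset.sup'_le _ _ (fun j _ => h j)

omit [MeasurableSpace X] in
theorem exists_env (c : J → X → ℝ) (w : J → ℝ) (x : X) : ∃ j, env c w x = c j x + w j := by
  obtain ⟨j, _, hj⟩ := Finset.exists_mem_eq_sup' Finset.univ_nonempty (fun j => c j x + w j)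
  exact ⟨j, hj⟩

omit [MeasurableSpace X] in
theorem env_abs (c : J → X → ℝ) (w : J → ℝ) (x : X) (B R : ℝ) (hB : ∀ j, |c j x| ≤ B)
    (hR : ∀ j, |w j| ≤ R) : |env c w x| ≤ B + R := by
  obtain ⟨j, hj⟩ := exists_env c w x
  rw [hj]
  exact (abs_add_le _ _).trans (add_le_add (hB j) (hR j))

theorem env_meas (c : J → X → ℝ) (hc : ∀ j, Measurable (c j)) (w : J → ℝ) :
    Measurable (env c w) := by
  have h : env c w = Finset.univ.sup' Finset.univ_nonempty (fun j x => c j x + w j) := by
    ext x
    rw [Finset.sup'_apply]
    rfl
  rw [h]
  refine Finset.measurable_sup' Finset.univ_nonempty ?_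
  intro j _
  exact (hc j).add_const _

omit [MeasurableSpace X] in
theorem env_cont (c : J → X → ℝ) (x : X) : Continuous (fun w => env c w x) := by
  unfold env
  refine Continuous.finset_sup'_apply Finset.univ_nonempty ?_
  intro j _
  exact continuous_const.add (continuous_apply j)

theorem exists_weights (μ : Measure X) (K : Set X) (hK : MeasurableSet K)
    (hμ : μ K ≠ ⊤) (c : J → X → ℝ) (hc : ∀ j, Measurable (c j)) (B : ℝ)
    (hB : ∀ x ∈ K, ∀ j, |c j x| ≤ B) (s : Setoid J)
    (hsym : ∀ w : J → ℝ, (∀ j l, s j l → w j = w l) → ∀ j l, s j l →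
      μ (cell K c w j) = μ (cell K c w l)) :
    ∃ w : J → ℝ, (∀ j l, s j l → w j = w l) ∧
      ∀ j, μ.real K ≤ (Fintype.card J) * μ.real (cell K c w j) := by
  classical
  by_cases hK0 : μ.real K = 0
  · refine ⟨fun _ => 0, fun _ _ _ => rfl, fun j => ?_⟩
    rw [hK0]
    positivity
  have hK1 : 0 < μ.real K := lt_of_le_of_ne measureReal_nonneg (Ne.symm hK0)
  have hKne : K.Nonempty := by
    rw [Set.nonempty_iff_ne_empty]
    rintro rfl
    simp at hK0
  obtain ⟨x0, hx0⟩ := hKne
  have hB0 : 0 ≤ B := (abs_nonneg _).trans (hB x0 hx0 (Classical.arbitrary J))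
  set n : ℝ := (Fintype.card J : ℝ) with hn
  have hn0 : 0 < n := by rw [hn]; exact_mod_cast Fintype.card_pos
  set R : ℝ := 2 * B + 1 with hR
  have hR0 : 0 < R := by rw [hR]; linarith
  set W : Set (J → ℝ) := {w | (∀ j, w j ∈ Icc (0:ℝ) R) ∧ ∀ j l, s j l → w j = w l} with hW
  have hWc : IsCompact W := by
    have h1 : IsCompact (Set.pi univ (fun _ : J => Icc (0:ℝ) R)) :=
      isCompact_univ_pi (fun _ => isCompact_Icc)
    have h2 : IsClosed {w : J → ℝ | ∀ j l, s j l → w j = w l} := by
      simp only [ofPred_forall]
      refine isClosed_iInter fun j => isClosed_iInter fun l => isClosed_iInter fun _ => ?_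
      exact isClosed_eq (continuous_apply j) (continuous_apply l)
    have h3 : W = Set.pi univ (fun _ : J => Icc (0:ℝ) R) ∩
        {w : J → ℝ | ∀ j l, s j l → w j = w l} := by
      ext w
      simp only [hW, mem_inter_iff, mem_univ_pi, mem_ofPred_eq]
    rw [h3]
    exact h1.inter_right h2
  have hWne : W.Nonempty := ⟨fun _ => 0, fun _ => ⟨le_rfl, hR0.le⟩, fun _ _ _ => rfl⟩
  set Ψ : (J → ℝ) → ℝ := fun w => μ.real K / n * ∑ j, w j - ∫ x in K, env c w x ∂μ with hΨ
  have hKfin : IsFiniteMeasure (μ.restrict K) := ⟨by simpa using hμ.lt_top⟩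
  have hbd : ∀ w ∈ W, ∀ᵐ x ∂(μ.restrict K), ‖env c w x‖ ≤ B + R := by
    intro w hw
    filter_upwards [ae_restrict_mem hK] with x hx
    exact env_abs c w x B R (hB x hx) (fun j => by
      rw [abs_of_nonneg (hw.1 j).1]
      exact (hw.1 j).2)
  have hint : ∀ w ∈ W, Integrable (env c w) (μ.restrict K) := by
    intro w hw
    refine Integrable.mono' (integrable_const (B + R)) (env_meas c hc w).aestronglyMeasurable ?_
    exact hbd w hw
  have hΨc : ContinuousOn Ψ W := by
    rw [hΨ]
    refine ContinuousOn.sub ?_ ?_
    · exact (continuous_const.mul (continuous_finsetSum _ fun j _ => continuous_apply j)).continuousOn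
    · refine continuousOn_of_dominated (bound := fun _ => B + R) ?_ ?_ ?_ ?_
      · intro w _
        exact (env_meas c hc w).aestronglyMeasurable
      · exact hbd
      · exact integrable_const _
      · exact Eventually.of_forall fun x => (env_cont c x).continuousOn
  obtain ⟨w0, hw0, hmax⟩ := hWc.exists_isMaxOn hWne hΨc
  -- shift such that the minimum is zero
  obtain ⟨j1, -, hj1⟩ := Finset.exists_min_image Finset.univ w0 Finset.univ_nonempty
  set w : J → ℝ := fun j => w0 j - w0 j1 with hw
  have hwW : w ∈ W := by
    refine ⟨fun j => ⟨?_, ?_⟩, fun j l h => ?_⟩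
    · simp only [hw]; linarith [hj1 j (Finset.mem_univ j)]
    · simp only [hw]; linarith [(hw0.1 j).2, (hw0.1 j1).1]
    · simp only [hw]; rw [hw0.2 j l h]
  have hΨw : Ψ w = Ψ w0 := by
    have e1 : ∀ x, env c w x = env c w0 x - w0 j1 := by
      intro x
      apply le_antisymm
      · refine env_le c w x _ fun j => ?_
        simp only [hw]
        linarith [le_env c w0 x j]
      · have : env c w0 x ≤ env c w x + w0 j1 := by
          refine env_le c w0 x _ fun j => ?_
          have := le_env c w x j
          simp only [hw] at this
          linarith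
        linarith
    simp only [hΨ]
    simp_rw [e1]
    rw [integral_sub (hint w0 hw0) (integrable_const _)]
    simp only [hw, Finset.sum_sub_distrib, Finset.sum_const, Finset.card_univ, nsmul_eq_mul,
      integral_const, smul_eq_mul]
    rw [measureReal_restrict_apply_univ]
    rw [← hn]
    field_simp
    ring
  have hmax' : ∀ v ∈ W, Ψ v ≤ Ψ w := by
    intro v hv
    rw [hΨw]
    exact hmax hv
  -- the key estimate
  have key : ∀ j0, w j0 < R → μ.real K ≤ n * μ.real (cell K c w j0) := by
    intro j0 hj0
    set O : Finset J := Finset.univ.filter (fun j => s j0 j) with hO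
    have hOne : O.Nonempty := ⟨j0, by simp [hO]⟩
    have hOmem : ∀ j, j ∈ O ↔ s j0 j := by intro j; simp [hO]
    set mO : X → ℝ := fun x => O.sup' hOne (fun j => c j x + w j) with hmO
    have hmOmeas : Measurable mO := by
      have h : mO = O.sup' hOne (fun j x => c j x + w j) := by
        ext x
        rw [Finset.sup'_apply]
      rw [h]
      refine Finset.measurable_sup' hOne ?_
      intro j _
      exact (hc j).add_const _
    set A : ℝ → Set X := fun t => {x ∈ K | ∀ l, l ∉ O → c l x + w l ≤ mO x + t} with hA
    have hAm : ∀ t, MeasurableSet (A t) := by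
      intro t
      simp only [hA, ofPred_and, ofPred_forall]
      refine hK.inter (MeasurableSet.iInter fun l => MeasurableSet.iInter fun _ => ?_)
      exact measurableSet_le ((hc l).add_const _) (hmOmeas.add_const _)
    have hAt : ∀ t, 0 < t → t ≤ R - w j0 → μ.real K / n * O.card ≤ μ.real (A t) := by
      intro t ht0 ht1
      set v : J → ℝ := fun j => w j + if j ∈ O then t else 0 with hv
      have hvW : v ∈ W := by
        refine ⟨fun j => ?_, fun j l h => ?_⟩
        · simp only [hv]
          split_ifs with hj
          · have : w j = w j0 := (hwW.2 j0 j ((hOmem j).mp hj)).symm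
            rw [this]
            exact ⟨by linarith [(hwW.1 j0).1], by linarith⟩
          · rw [add_zero]; exact hwW.1 j
        · simp only [hv]
          rw [hwW.2 j l h]
          have : j ∈ O ↔ l ∈ O := by
            rw [hOmem, hOmem]
            exact ⟨fun h' => s.trans' h' h, fun h' => s.trans' h' (s.symm' h)⟩
          simp only [this]
      have h1 := hmax' v hvW
      simp only [hΨ] at h1
      have h2 : ∑ j, v j = ∑ j, w j + O.card * t := by
        simp only [hv, Finset.sum_add_distrib]
        congr 1
        rw [Finset.sum_ite_mem]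
        simp
      rw [h2] at h1
      have h3 : ∫ x in K, env c v x ∂μ - ∫ x in K, env c w x ∂μ ≤ t * μ.real (A t) := by
        rw [← integral_sub (hint v hvW) (hint w hwW)]
        have h4 : ∫ x in K, (A t).indicator (fun _ => t) x ∂μ = t * μ.real (A t) := by
          rw [integral_indicator (hAm t), Measure.restrict_restrict (hAm t)]
          have : A t ∩ K = A t := inter_eq_left.mpr (fun x hx => hx.1)
          rw [this, integral_const, smul_eq_mul, measureReal_restrict_apply_univ, mul_comm]
        rw [← h4]
        refine integral_mono_ae ((hint v hvW).sub (hint w hwW))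
          ((integrable_const t).indicator (hAm t)) ?_
        filter_upwards [ae_restrict_mem hK] with x hx
        by_cases hxA : x ∈ A t
        · rw [indicator_of_mem hxA]
          have : env c v x ≤ env c w x + t := by
            refine env_le c v x _ fun j => ?_
            simp only [hv]
            have := le_env c w x j
            split_ifs <;> linarith
          show env c v x - env c w x ≤ t
          linarith
        · rw [indicator_of_notMem hxA]
          have h5 : ∃ l, l ∉ O ∧ mO x + t < c l x + w l := by
            by_contra hcon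
            push Not at hcon
            exact hxA ⟨hx, hcon⟩
          obtain ⟨l, hl, hlt⟩ := h5
          have : env c v x ≤ env c w x := by
            refine env_le c v x _ fun j => ?_
            simp only [hv]
            split_ifs with hj
            · have h6 : c j x + w j ≤ mO x := Finset.le_sup' (fun j => c j x + w j) hj
              have := le_env c w x l
              linarith
            · have := le_env c w x j
              linarith
          show env c v x - env c w x ≤ 0
          linarith
      have h6 : μ.real K / n * (O.card * t) ≤ t * μ.real (A t) := by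
        have : μ.real K / n * (∑ j, w j + O.card * t) =
          μ.real K / n * ∑ j, w j + μ.real K / n * (O.card * t) := by ring
        rw [this] at h1
        linarith
      have h7 : (μ.real K / n * O.card) * t ≤ μ.real (A t) * t := by
        calc _ = μ.real K / n * (O.card * t) := by ring
          _ ≤ t * μ.real (A t) := h6
          _ = _ := by ring
      exact le_of_mul_le_mul_right h7 ht0
    -- limit t → 0
    have hA0 : μ.real K / n * O.card ≤ μ.real (A 0) := by
      set τ : ℕ → ℝ := fun k => (R - w j0) / (k + 1) with hτ
      have hRw : 0 < R - w j0 := by linarith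
      have hτ0 : ∀ k, 0 < τ k := fun k => by rw [hτ]; positivity
      have hτ1 : ∀ k, τ k ≤ R - w j0 := fun k => by
        rw [hτ]
        exact div_le_self hRw.le (by linarith [Nat.cast_nonneg (α := ℝ) k])
      have hτlim : Tendsto τ atTop (𝓝 0) := by
        rw [hτ]
        exact Tendsto.div_atTop tendsto_const_nhds
          (tendsto_atTop_add_const_right _ _ tendsto_natCast_atTop_atTop)
      have hanti : Antitone (fun k => A (τ k)) := by
        intro k l hkl x hx
        refine ⟨hx.1, fun i hi => (hx.2 i hi).trans ?_⟩
        have : τ l ≤ τ k := by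
          rw [hτ]
          simp only
          gcongr
        linarith
      have hinter : ⋂ k, A (τ k) = A 0 := by
        ext x
        constructor
        · intro hx
          rw [mem_iInter] at hx
          refine ⟨(hx 0).1, fun l hl => ?_⟩
          have : Tendsto (fun k => mO x + τ k) atTop (𝓝 (mO x + 0)) :=
            tendsto_const_nhds.add hτlim
          exact ge_of_tendsto this (Eventually.of_forall fun k => (hx k).2 l hl)
        · intro hx
          rw [mem_iInter]
          intro k
          exact ⟨hx.1, fun l hl => (hx.2 l hl).trans (by linarith [hτ0 k])⟩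
      have hlim := tendsto_measure_iInter_atTop (μ := μ) (s := fun k => A (τ k))
        (fun k => (hAm _).nullMeasurableSet) hanti
        ⟨0, ne_top_of_le_ne_top hμ (measure_mono fun x hx => hx.1)⟩
      rw [hinter] at hlim
      have hA0t : μ (A 0) ≠ ⊤ := ne_top_of_le_ne_top hμ (measure_mono fun x hx => hx.1)
      have hlim2 := (ENNReal.tendsto_toReal hA0t).comp hlim
      exact ge_of_tendsto hlim2 (Eventually.of_forall fun k => hAt (τ k) (hτ0 k) (hτ1 k))
    have hsub : A 0 ⊆ ⋃ j ∈ O, cell K c w j := by
      intro x hx
      obtain ⟨j, hj, hjm⟩ := Finset.exists_mem_eq_sup' hOne (fun j => c j x + w j)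
      simp only [mem_iUnion]
      refine ⟨j, hj, hx.1, fun l => ?_⟩
      by_cases hl : l ∈ O
      · exact (Finset.le_sup' (fun j => c j x + w j) hl).trans hjm.le
      · have := hx.2 l hl
        simp only [hmO, add_zero] at this
        exact this.trans hjm.le
    have hle : μ.real (A 0) ≤ O.card * μ.real (cell K c w j0) := by
      have h1 : μ (A 0) ≤ ∑ j ∈ O, μ (cell K c w j) :=
        (measure_mono hsub).trans (measure_biUnion_finset_le O _)
      have h2 : ∑ j ∈ O, μ (cell K c w j) = O.card * μ (cell K c w j0) := by
        rw [Finset.sum_congr rfl (fun j hj =>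
          (hsym w hwW.2 j0 j ((hOmem j).mp hj)).symm), Finset.sum_const, nsmul_eq_mul]
      rw [h2] at h1
      have h3 : (O.card : ENNReal) * μ (cell K c w j0) ≠ ⊤ :=
        ENNReal.mul_ne_top (by simp) (ne_top_of_le_ne_top hμ (measure_mono fun x hx => hx.1))
      have := ENNReal.toReal_mono h3 h1
      rw [ENNReal.toReal_mul, ENNReal.toReal_natCast] at this
      exact this
    have hOc : (0:ℝ) < O.card := by exact_mod_cast hOne.card_pos
    have h8 : μ.real K / n * O.card ≤ μ.real (cell K c w j0) * O.card := by
      linarith
    have h9 := le_of_mul_le_mul_right h8 hOc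
    rw [div_le_iff₀ hn0] at h9
    linarith
  have hwR : ∀ j, w j < R := by
    have h0 : w j1 = 0 := by simp [hw]
    have h1 := key j1 (by rw [h0]; exact hR0)
    have h2 : 0 < μ.real (cell K c w j1) := by
      by_contra hcon
      push Not at hcon
      have : n * μ.real (cell K c w j1) ≤ 0 := mul_nonpos_of_nonneg_of_nonpos hn0.le hcon
      linarith
    have h3 : (cell K c w j1).Nonempty := by
      rw [Set.nonempty_iff_ne_empty]
      intro h
      rw [h] at h2
      simp at h2
    obtain ⟨x, hxK, hx⟩ := h3
    intro l
    have h4 := hx l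
    rw [h0] at h4
    have h5 := abs_le.mp (hB x hxK l)
    have h6 := abs_le.mp (hB x hxK j1)
    rw [hR]
    linarith [h5.1, h6.2]
  exact ⟨w, hwW.2, fun j => key j (hwR j)⟩

end Pool.Agent.K4H96.HS
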