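import Mathlib
import Pool.Agent.K4H96.HS.BM0
import Pool.Agent.K4H96.HS.Weights

/-!
# Monotone sums: the discretised inequality
-/

set_option autoImplicit false

open MeasureTheory Set Filter Topology
open scoped ENNReal Pointwise

namespace Pool.Agent.K4H96.HS

/-- invariance under the permutations of the `N` particles -/
def PermInv {N d : ℕ} (K : Set (Fin N → Fin d → ℝ)) : Prop :=
  ∀ σ : Equiv.Perm (Fin N), ∀ x ∈ K, (fun i => x (σ i)) ∈ K

/-- the inner product of two differences -/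
def pin {N d : ℕ} (x y : Fin N → Fin d → ℝ) (i j : Fin N) : ℝ :=
  ∑ k, (x i k - x j k) * (y i k - y j k)

/-- approximate monotone sum -/
def RS {N d : ℕ} (K E : Set (Fin N → Fin d → ℝ)) (δ : ℝ) : Set (Fin N → Fin d → ℝ) :=
  {z | ∃ x ∈ K, ∃ e ∈ E, (∀ i k, |z i k - x i k - e i k| ≤ δ) ∧ ∀ i j, -δ ≤ pin x e i j}

theorem swap_sum {N d : ℕ} (x u : Fin N → Fin d → ℝ) (i j : Fin N) :
    ∑ l, ∑ k, x l k * (u l k - u (Equiv.swap i j l) k) =
      ∑ k, (x i k - x j k) * (u i k - u j k) := by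
  by_cases hij : i = j
  · subst hij
    simp
  · rw [Fintype.sum_eq_add i j hij]
    · rw [Equiv.swap_apply_left, Equiv.swap_apply_right, ← Finset.sum_add_distrib]
      refine Finset.sum_congr rfl fun k _ => ?_
      ring
    · intro l hl
      rw [Equiv.swap_apply_of_ne_of_ne hl.1 hl.2]
      simp

theorem vol_cube {N d : ℕ} (p : Fin N → Fin d → ℝ) (s : ℝ) (hs : 0 ≤ s) :
    (volume : Measure (Fin N → Fin d → ℝ)).real
      {q | ∀ i k, p i k ≤ q i k ∧ q i k ≤ p i k + s} = s ^ (N * d) := by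
  have h1 : {q : Fin N → Fin d → ℝ | ∀ i k, p i k ≤ q i k ∧ q i k ≤ p i k + s} =
      Set.pi univ (fun i => Set.pi univ (fun k => Icc (p i k) (p i k + s))) := by
    ext q
    simp only [mem_ofPred_eq, mem_univ_pi, mem_Icc]
  rw [h1, measureReal_def, volume_pi, Measure.pi_pi]
  simp_rw [volume_pi, Measure.pi_pi, Real.volume_Icc]
  simp only [add_sub_cancel_left, Finset.prod_const, Finset.card_univ, Fintype.card_fin]
  rw [ENNReal.toReal_pow, ENNReal.toReal_pow, ENNReal.toReal_ofReal hs, ← pow_mul, mul_comm]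

theorem finite_fl {N d : ℕ} (E : Set (Fin N → Fin d → ℝ)) (ε C : ℝ) (hε : 0 < ε)
    (hE : ∀ e ∈ E, ∀ i k, |e i k| ≤ C) :
    ((fun (e : Fin N → Fin d → ℝ) (i : Fin N) (k : Fin d) => ⌊e i k / ε⌋) '' E).Finite := by
  refine (Set.finite_Icc (fun (_ : Fin N) (_ : Fin d) => ⌊-C / ε⌋)
    (fun (_ : Fin N) (_ : Fin d) => ⌊C / ε⌋)).subset ?_
  rintro _ ⟨e, he, rfl⟩
  constructor
  · intro i k
    exact Int.floor_le_floor (div_le_div_of_nonneg_right (abs_le.mp (hE e he i k)).1 hε.le)
  · intro i k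
    exact Int.floor_le_floor (div_le_div_of_nonneg_right (abs_le.mp (hE e he i k)).2 hε.le)

theorem perm_mp {N d : ℕ} (σ : Equiv.Perm (Fin N)) :
    MeasurePreserving (fun (x : Fin N → Fin d → ℝ) (i : Fin N) => x (σ i)) volume volume := by
  have h := volume_measurePreserving_piCongrLeft (fun _ : Fin N => Fin d → ℝ) σ.symm
  have e : (fun (x : Fin N → Fin d → ℝ) (i : Fin N) => x (σ i)) =
      ⇑(MeasurableEquiv.piCongrLeft (fun _ : Fin N => Fin d → ℝ) σ.symm) := by
    funext x i
    rw [MeasurableEquiv.coe_piCongrLeft]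
    have h2 := Equiv.piCongrLeft_apply_apply (fun _ : Fin N => Fin d → ℝ) σ.symm x (σ i)
    rw [Equiv.symm_apply_apply] at h2
    exact h2.symm
  rw [e]
  exact h

theorem main_eps {N d : ℕ} (hN : 0 < N) (hd : 0 < d) (K E : Set (Fin N → Fin d → ℝ))
    (hK : IsCompact K) (hKi : PermInv K) (hEi : PermInv E)
    (hEne : E.Nonempty) (B C : ℝ) (hB : ∀ x ∈ K, ∀ i k, |x i k| ≤ B)
    (hC : ∀ x ∈ E, ∀ i k, |x i k| ≤ C) (a b κ ε : ℝ) (ha : 0 < a) (hb : 0 ≤ b)
    (hκ0 : 0 < κ) (hκ1 : κ < 1) (hε : 0 < ε)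
    (hVK : a ^ (N * d) ≤ (volume : Measure (Fin N → Fin d → ℝ)).real K)
    (hVE : b ^ (N * d) ≤ (volume : Measure (Fin N → Fin d → ℝ)).real E)
    (hRfin : (volume : Measure (Fin N → Fin d → ℝ)) (RS K E (ε * (1 + 2 * d * B))) ≠ ⊤) :
    (a + κ * b) ^ (N * d) ≤
      (volume : Measure (Fin N → Fin d → ℝ)).real (RS K E (ε * (1 + 2 * d * B))) := by
  classical
  set m : ℕ := N * d with hm
  have hm0 : 0 < m := Nat.mul_pos hN hd
  set μ : Measure (Fin N → Fin d → ℝ) := volume with hμ
  have hKpos : 0 < μ.real K := lt_of_lt_of_le (pow_pos ha _) hVK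
  have hKne : K.Nonempty := by
    rw [Set.nonempty_iff_ne_empty]
    rintro rfl
    simp at hKpos
  have hB0 : 0 ≤ B := by
    obtain ⟨x, hx⟩ := hKne
    exact (abs_nonneg _).trans (hB x hx ⟨0, hN⟩ ⟨0, hd⟩)
  set fl : (Fin N → Fin d → ℝ) → (Fin N → Fin d → ℤ) :=
    fun (e : Fin N → Fin d → ℝ) (i : Fin N) (k : Fin d) => ⌊e i k / ε⌋ with hfl
  have hflfin : (fl '' E).Finite := finite_fl E ε C hε hC
  have hflb : ∀ e : Fin N → Fin d → ℝ, ∀ i k, ε * (fl e i k : ℝ) ≤ e i k ∧
      e i k ≤ ε * (fl e i k : ℝ) + ε := by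
    intro e i k
    simp only [hfl]
    have h1 := Int.floor_le (e i k / ε)
    have h2 := Int.lt_floor_add_one (e i k / ε)
    rw [le_div_iff₀ hε] at h1
    rw [div_lt_iff₀ hε] at h2
    constructor
    · linarith
    · linarith
  let J : Type := ↥(fl '' E)
  have : Fintype J := hflfin.fintype
  have : Nonempty J := ⟨⟨fl hEne.some, mem_image_of_mem _ hEne.some_mem⟩⟩
  let act : Equiv.Perm (Fin N) → J → J := fun σ u => ⟨fun i => u.1 (σ i), by
    obtain ⟨e, he, hu⟩ := u.2
    refine ⟨fun i => e (σ i), hEi σ e he, ?_⟩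
    rw [← hu]⟩
  let c : J → (Fin N → Fin d → ℝ) → ℝ := fun u x => ∑ i, ∑ k, x i k * (ε * (u.1 i k : ℝ))
  have hc : ∀ u, Continuous (c u) := by
    intro u
    simp only [c]
    fun_prop
  let s : Setoid J :=
    { r := fun u v => ∃ σ : Equiv.Perm (Fin N), v = act σ u
      iseqv := by
        refine ⟨fun u => ⟨1, rfl⟩, ?_, ?_⟩
        · rintro u v ⟨σ, rfl⟩
          refine ⟨σ⁻¹, ?_⟩
          apply Subtype.ext
          funext i
          simp [act]
        · rintro u v t ⟨σ, rfl⟩ ⟨τ, rfl⟩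
          exact ⟨σ * τ, rfl⟩ }
  have hcperm : ∀ (σ : Equiv.Perm (Fin N)) (u : J) (x : Fin N → Fin d → ℝ),
      c (act σ u) (fun i => x (σ i)) = c u x := by
    intro σ u x
    simp only [c, act]
    exact Equiv.sum_comp σ (fun i => ∑ k, x i k * (ε * (u.1 i k : ℝ)))
  have hcellcl : ∀ (w : J → ℝ) (u : J), IsCompact (cell K c w u) := by
    intro w u
    have : cell K c w u = K ∩ ⋂ l, {x | c l x + w l ≤ c u x + w u} := by
      ext x
      simp [cell]
    rw [this]
    refine hK.inter_right (isClosed_iInter fun l => ?_)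
    exact isClosed_le ((hc l).add continuous_const) ((hc u).add continuous_const)
  have hsym : ∀ w : J → ℝ, (∀ j l, s j l → w j = w l) → ∀ j l, s j l →
      μ (cell K c w j) = μ (cell K c w l) := by
    rintro w hw u _ ⟨σ, rfl⟩
    have hmp := perm_mp (N := N) (d := d) σ
    have h1 := hmp.measure_preimage (hcellcl w (act σ u)).measurableSet.nullMeasurableSet
    rw [← h1]
    congr 1
    ext x
    simp only [cell, mem_preimage, mem_ofPred_eq]
    constructor
    · rintro ⟨hx1, hx2⟩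
      refine ⟨hKi σ x hx1, fun l => ?_⟩
      have e1 : l = act σ (act σ⁻¹ l) := by
        apply Subtype.ext
        funext i
        simp [act]
      rw [e1, hcperm, hcperm, ← hw u (act σ u) ⟨σ, rfl⟩,
        ← hw (act σ⁻¹ l) (act σ (act σ⁻¹ l)) ⟨σ, rfl⟩]
      exact hx2 _
    · rintro ⟨hx1, hx2⟩
      refine ⟨?_, fun l => ?_⟩
      · have := hKi σ⁻¹ _ hx1
        simpa using this
      · have h3 := hx2 (act σ l)
        rw [hcperm, hcperm, ← hw u (act σ u) ⟨σ, rfl⟩, ← hw l (act σ l) ⟨σ, rfl⟩] at h3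
        exact h3
  obtain ⟨Bc, hBc⟩ : ∃ Bc : ℝ, ∀ x ∈ K, ∀ u, |c u x| ≤ Bc := by
    have h1 : ∀ u, ∃ b : ℝ, ∀ x ∈ K, |c u x| ≤ b := by
      intro u
      obtain ⟨b, hb⟩ := hK.exists_bound_of_continuousOn (hc u).continuousOn
      exact ⟨b, hb⟩
    choose bb hbb using h1
    refine ⟨∑ u, |bb u|, fun x hx u => ?_⟩
    exact ((hbb u x hx).trans (le_abs_self _)).trans
      (Finset.single_le_sum (f := fun u => |bb u|) (fun _ _ => abs_nonneg _) (Finset.mem_univ u))
  obtain ⟨w, hwinv, hwvol⟩ := exists_weights μ K hK.measurableSet hK.measure_ne_top c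
    (fun u => (hc u).measurable) Bc hBc s hsym
  set n : ℝ := (Fintype.card J : ℝ) with hn
  have hn0 : 0 < n := by rw [hn]; exact_mod_cast Fintype.card_pos
  set c0 : ℝ := (n⁻¹) ^ (((m : ℕ) : ℝ)⁻¹) with hc0
  have hc0m : c0 ^ m = n⁻¹ := Real.rpow_inv_natCast_pow (by positivity) hm0.ne'
  have hc0pos : 0 < c0 := Real.rpow_pos_of_pos (by positivity) _
  -- small cubes
  let Q : J → Set (Fin N → Fin d → ℝ) := fun u =>
    {q | ∀ i k, ε * (u.1 i k : ℝ) ≤ q i k ∧ q i k ≤ ε * (u.1 i k : ℝ) + κ * ε}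
  have hQc : ∀ u, IsCompact (Q u) := by
    intro u
    have : Q u = Set.pi univ (fun i => Set.pi univ (fun k =>
        Icc (ε * (u.1 i k : ℝ)) (ε * (u.1 i k : ℝ) + κ * ε))) := by
      ext q
      simp only [Q, mem_ofPred_eq, mem_univ_pi, mem_Icc]
    rw [this]
    exact isCompact_univ_pi fun i => isCompact_univ_pi fun k => isCompact_Icc
  have hQv : ∀ u, μ.real (Q u) = (κ * ε) ^ m := fun u =>
    vol_cube (fun i k => ε * (u.1 i k : ℝ)) (κ * ε) (by positivity)
  have hfr : Module.finrank ℝ (Fin N → Fin d → ℝ) = m := by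
    rw [Module.finrank_pi_fintype]
    simp [hm]
  have hcellv : ∀ u, (a * c0) ^ m ≤ μ.real (cell K c w u) := by
    intro u
    rw [mul_pow, hc0m, ← div_eq_mul_inv, div_le_iff₀ hn0]
    calc a ^ m ≤ μ.real K := hVK
      _ ≤ n * μ.real (cell K c w u) := hwvol u
      _ = _ := mul_comm _ _
  have hpiece : ∀ u, (a * c0 + κ * ε) ^ m ≤ μ.real (cell K c w u + Q u) := by
    intro u
    exact bm_compact μ (cell K c w u) (Q u) (hcellcl w u) (hQc u) m hfr (a * c0) (κ * ε)
      (by positivity) (by positivity) (hcellv u) (hQv u).ge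
  -- separation
  have hdisj : Pairwise (fun u v => Disjoint (cell K c w u + Q u) (cell K c w v + Q v)) := by
    intro u v huv
    rw [Set.disjoint_left]
    rintro z ⟨x, hx, q, hq, rfl⟩ ⟨x', hx', q', hq', hz⟩
    have h1 := hx.2 v
    have h2 := hx'.2 u
    have h3 : 0 ≤ ∑ i, ∑ k, (x i k - x' i k) * ((u.1 i k : ℝ) - v.1 i k) := by
      have h4 : ε * ∑ i, ∑ k, (x i k - x' i k) * ((u.1 i k : ℝ) - v.1 i k) =
          (c u x - c v x) - (c u x' - c v x') := by
        simp only [c, Finset.mul_sum, ← Finset.sum_sub_distrib]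
        refine Finset.sum_congr rfl fun i _ => Finset.sum_congr rfl fun k _ => ?_
        ring
      have h5 : 0 ≤ ε * ∑ i, ∑ k, (x i k - x' i k) * ((u.1 i k : ℝ) - v.1 i k) := by
        rw [h4]
        linarith
      exact nonneg_of_mul_nonneg_right h5 hε
    have h6 : ∀ i k, (1 - κ) * ε * ((u.1 i k : ℝ) - v.1 i k) ^ 2 ≤
        (q i k - q' i k) * ((u.1 i k : ℝ) - v.1 i k) := by
      intro i k
      have hq1 := hq i k
      have hq2 := hq' i k
      set y : ℤ := u.1 i k - v.1 i k with hy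
      have hyr : (u.1 i k : ℝ) - v.1 i k = (y : ℝ) := by rw [hy]; push_cast; ring
      have hyabs : |(y : ℝ)| ≤ (y : ℝ) ^ 2 := by
        have h7 : |y| ≤ y ^ 2 := by
          rcases eq_or_ne y 0 with h0 | h0
          · rw [h0]; simp
          · have : 1 ≤ |y| := Int.one_le_abs h0
            calc |y| = |y| * 1 := by ring
              _ ≤ |y| * |y| := by gcongr
              _ = y ^ 2 := by rw [← sq, sq_abs]
        have h8 : ((|y| : ℤ) : ℝ) ≤ ((y ^ 2 : ℤ) : ℝ) := by exact_mod_cast h7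
        push_cast at h8
        exact h8
      have h9 : q i k - q' i k - ε * y ≤ κ * ε ∧ -(κ * ε) ≤ q i k - q' i k - ε * y := by
        rw [← hyr]
        constructor <;> linarith [hq1.1, hq1.2, hq2.1, hq2.2]
      rw [hyr]
      have h10 : -(κ * ε * |(y:ℝ)|) ≤ (q i k - q' i k - ε * y) * y := by
        have : |(q i k - q' i k - ε * y) * y| ≤ κ * ε * |(y:ℝ)| := by
          rw [abs_mul]
          gcongr
          exact abs_le.mpr ⟨h9.2, h9.1⟩
        exact (abs_le.mp this).1
      have h11 : κ * ε * |(y:ℝ)| ≤ κ * ε * (y:ℝ) ^ 2 := by gcongr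
      nlinarith [h10, h11]
    have h12 : ∃ i k, u.1 i k ≠ v.1 i k := by
      by_contra hcon
      push Not at hcon
      apply huv
      apply Subtype.ext
      funext i k
      exact hcon i k
    obtain ⟨i0, k0, h13⟩ := h12
    have h14 : 0 < ∑ i, ∑ k, (1 - κ) * ε * ((u.1 i k : ℝ) - v.1 i k) ^ 2 := by
      have h1κ : 0 < 1 - κ := by linarith
      refine Finset.sum_pos' (fun i _ => Finset.sum_nonneg fun k _ => by positivity)
        ⟨i0, Finset.mem_univ _, ?_⟩
      refine Finset.sum_pos' (fun k _ => by positivity) ⟨k0, Finset.mem_univ _, ?_⟩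
      have : (u.1 i0 k0 : ℝ) - v.1 i0 k0 ≠ 0 := by
        rw [sub_ne_zero]
        exact_mod_cast h13
      positivity
    have h15 : ∑ i, ∑ k, (1 - κ) * ε * ((u.1 i k : ℝ) - v.1 i k) ^ 2 ≤
        ∑ i, ∑ k, (q i k - q' i k) * ((u.1 i k : ℝ) - v.1 i k) :=
      Finset.sum_le_sum fun i _ => Finset.sum_le_sum fun k _ => h6 i k
    have h16 : ∑ i, ∑ k, (x i k - x' i k) * ((u.1 i k : ℝ) - v.1 i k) +
        ∑ i, ∑ k, (q i k - q' i k) * ((u.1 i k : ℝ) - v.1 i k) = 0 := by
      rw [← Finset.sum_add_distrib]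
      refine Finset.sum_eq_zero fun i _ => ?_
      rw [← Finset.sum_add_distrib]
      refine Finset.sum_eq_zero fun k _ => ?_
      have : x' i k + q' i k = x i k + q i k := by
        have := congrFun (congrFun hz i) k
        simpa using this
      have h17 : x i k - x' i k = -(q i k - q' i k) := by linarith
      rw [h17]
      ring
    linarith
  -- inclusion
  have hincl : ∀ u, cell K c w u + Q u ⊆ RS K E (ε * (1 + 2 * d * B)) := by
    rintro u _ ⟨x, hx, q, hq, rfl⟩
    obtain ⟨e, he, hue⟩ := u.2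
    refine ⟨x, hx.1, e, he, fun i k => ?_, fun i j => ?_⟩
    · have h1 := hflb e i k
      rw [hue] at h1
      have h2 := hq i k
      have h3 : κ * ε ≤ ε := by nlinarith
      have h4 : (x + q) i k - x i k - e i k = q i k - e i k := by
        simp
      simp only at h4 ⊢
      rw [h4]
      have h5 : |q i k - e i k| ≤ ε := by
        rw [abs_le]
        constructor <;> linarith [h1.1, h1.2, h2.1, h2.2]
      refine h5.trans ?_
      have : 0 ≤ ε * (2 * d * B) := by positivity
      nlinarith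
    · have h1 := hx.2 (act (Equiv.swap i j) u)
      rw [← hwinv u (act (Equiv.swap i j) u) ⟨_, rfl⟩] at h1
      have h2 : c u x - c (act (Equiv.swap i j) u) x =
          ε * ∑ k, (x i k - x j k) * ((u.1 i k : ℝ) - u.1 j k) := by
        rw [← swap_sum x (fun i k => (u.1 i k : ℝ)) i j]
        simp only [c, act, Finset.mul_sum, ← Finset.sum_sub_distrib]
        refine Finset.sum_congr rfl fun l _ => Finset.sum_congr rfl fun k _ => ?_
        ring
      have h3 : 0 ≤ ε * ∑ k, (x i k - x j k) * ((u.1 i k : ℝ) - u.1 j k) := by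
        rw [← h2]
        linarith
      have h4 : ∑ k, (x i k - x j k) * (ε * (u.1 i k : ℝ) - ε * u.1 j k) - ε * (2 * d * B) ≤
          pin x e i j := by
        unfold pin
        have h5 : ε * (2 * d * B) = ∑ k : Fin d, 2 * B * ε := by
          rw [Finset.sum_const, Finset.card_univ, Fintype.card_fin, nsmul_eq_mul]
          ring
        rw [h5, ← Finset.sum_sub_distrib]
        refine Finset.sum_le_sum fun k _ => ?_
        have h6 := hflb e i k
        have h7 := hflb e j k
        rw [hue] at h6 h7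
        have h8 : |(x i k - x j k) * ((e i k - e j k) - (ε * (u.1 i k : ℝ) - ε * u.1 j k))| ≤
            2 * B * ε := by
          rw [abs_mul]
          have h9 : |x i k - x j k| ≤ 2 * B := by
            have := abs_sub (x i k) (x j k)
            linarith [hB x hx.1 i k, hB x hx.1 j k]
          have h10 : |(e i k - e j k) - (ε * (u.1 i k : ℝ) - ε * u.1 j k)| ≤ ε := by
            rw [abs_le]
            constructor <;> linarith [h6.1, h6.2, h7.1, h7.2]
          exact mul_le_mul h9 h10 (abs_nonneg _) (by positivity)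
        have h11 := (abs_le.mp h8).1
        nlinarith [h11]
      have h12 : ∑ k, (x i k - x j k) * (ε * (u.1 i k : ℝ) - ε * u.1 j k) =
          ε * ∑ k, (x i k - x j k) * ((u.1 i k : ℝ) - u.1 j k) := by
        rw [Finset.mul_sum]
        refine Finset.sum_congr rfl fun k _ => ?_
        ring
      rw [h12] at h4
      nlinarith
  -- total volume
  have htotal : n * (a * c0 + κ * ε) ^ m ≤ μ.real (RS K E (ε * (1 + 2 * d * B))) := by
    have h1 : μ.real (⋃ u ∈ (Finset.univ : Finset J), (cell K c w u + Q u)) =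
        ∑ u, μ.real (cell K c w u + Q u) := by
      refine measureReal_biUnion_finset ?_ ?_ ?_
      · intro u _ v _ huv
        exact hdisj huv
      · intro u _
        exact ((hcellcl w u).add (hQc u)).measurableSet
      · intro u _
        exact ((hcellcl w u).add (hQc u)).measure_ne_top
    have h2 : μ.real (⋃ u ∈ (Finset.univ : Finset J), (cell K c w u + Q u)) ≤
        μ.real (RS K E (ε * (1 + 2 * d * B))) := by
      refine measureReal_mono ?_ hRfin
      refine iUnion₂_subset fun u _ => hincl u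
    refine le_trans ?_ h2
    rw [h1]
    calc n * (a * c0 + κ * ε) ^ m = ∑ _u : J, (a * c0 + κ * ε) ^ m := by
          rw [Finset.sum_const, Finset.card_univ, nsmul_eq_mul]
      _ ≤ _ := Finset.sum_le_sum fun u _ => hpiece u
  have hbε : b ≤ ε / c0 := by
    have h1 : μ.real E ≤ n * ε ^ m := by
      have h2 : E ⊆ ⋃ u ∈ (Finset.univ : Finset J),
          {q : Fin N → Fin d → ℝ | ∀ i k, ε * (u.1 i k : ℝ) ≤ q i k ∧
            q i k ≤ ε * (u.1 i k : ℝ) + ε} := by
        intro e he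
        simp only [mem_iUnion]
        exact ⟨⟨fl e, mem_image_of_mem _ he⟩, Finset.mem_univ _, fun i k => hflb e i k⟩
      have h3 : μ.real (⋃ u ∈ (Finset.univ : Finset J),
          {q : Fin N → Fin d → ℝ | ∀ i k, ε * (u.1 i k : ℝ) ≤ q i k ∧
            q i k ≤ ε * (u.1 i k : ℝ) + ε}) ≤ ∑ _u : J, ε ^ m := by
        refine (measureReal_biUnion_finset_le _ _).trans ?_
        refine Finset.sum_le_sum fun u _ => ?_
        exact (vol_cube (fun i k => ε * (u.1 i k : ℝ)) ε hε.le).le
      rw [Finset.sum_const, Finset.card_univ, nsmul_eq_mul, ← hn] at h3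
      refine le_trans (measureReal_mono h2 ?_) h3
      refine ne_top_of_le_ne_top ?_ (measure_biUnion_finset_le _ _)
      refine (ENNReal.sum_lt_top.mpr fun u _ => ?_).ne
      have : {q : Fin N → Fin d → ℝ | ∀ i k, ε * (u.1 i k : ℝ) ≤ q i k ∧
            q i k ≤ ε * (u.1 i k : ℝ) + ε} = Set.pi univ (fun i => Set.pi univ (fun k =>
          Icc (ε * (u.1 i k : ℝ)) (ε * (u.1 i k : ℝ) + ε))) := by
        ext q
        simp only [mem_ofPred_eq, mem_univ_pi, mem_Icc]
      rw [this]
      exact (isCompact_univ_pi fun i => isCompact_univ_pi fun k => isCompact_Icc).measure_lt_top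
    have h4 : b ^ m ≤ (ε / c0) ^ m := by
      rw [div_pow, hc0m, div_inv_eq_mul]
      calc b ^ m ≤ μ.real E := hVE
        _ ≤ n * ε ^ m := h1
        _ = _ := mul_comm _ _
    exact le_of_pow_le_pow_left₀ hm0.ne' (by positivity) h4
  calc (a + κ * b) ^ m ≤ (a + κ * (ε / c0)) ^ m := by gcongr
    _ = n * (a * c0 + κ * ε) ^ m := by
        have h1 : a + κ * (ε / c0) = (a * c0 + κ * ε) / c0 := by
          field_simp
        rw [h1, div_pow, hc0m, div_inv_eq_mul, mul_comm]
    _ ≤ _ := htotal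

end Pool.Agent.K4H96.HS
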