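import Mathlib

/-!
# The hard-sphere gas in a cube: definitions

Configurations of `N` centres, the partition function, the thermodynamic limit, the free energy per
particle, the free side `h`, close packing.
-/

set_option autoImplicit false

open MeasureTheory Set Filter Topology

namespace Pool.Agent.K4H96.HS

/-- Configurations of `N` points of `Λ ⊆ ℝ^d` at mutual (Euclidean) distances at least `r`. -/
def Conf (N d : ℕ) (r : ℝ) (Λ : Set (Fin d → ℝ)) : Set (Fin N → Fin d → ℝ) :=
  {x | (∀ i, x i ∈ Λ) ∧ ∀ i j, i ≠ j → r ^ 2 ≤ ∑ k, (x i k - x j k) ^ 2}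

/-- The cube `[0, L]^d`. -/
def Box (d : ℕ) (L : ℝ) : Set (Fin d → ℝ) := {y | ∀ k, y k ∈ Icc (0:ℝ) L}

/-- The hard-sphere partition function `Z(Λ, N)` of the cube `Λ = [0, L]^d`, radius `a`. -/
noncomputable def Zpart (d : ℕ) (a L : ℝ) (N : ℕ) : ℝ :=
  ((Nat.factorial N : ℝ))⁻¹ * (volume (Conf N d (2 * a) (Box d L))).toReal

/-- The thermodynamic limit at the density `ρ`: pairs `(N, L)` with `N → ∞`, `L → ∞`,
`N / L ^ d → ρ`. -/
noncomputable def thermo (d : ℕ) (ρ : ℝ) : Filter (ℕ × ℝ) :=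
  (atTop ×ˢ atTop) ⊓ comap (fun q : ℕ × ℝ => (q.1 : ℝ) / q.2 ^ d) (𝓝 ρ)

/-- `f` is the free energy per particle at the density `ρ`: `f = - lim N⁻¹ log Z(Λ, N)`. -/
def IsFreeEnergy (d : ℕ) (a ρ f : ℝ) : Prop :=
  (∀ᶠ q in thermo d ρ, 0 < Zpart d a q.2 q.1) ∧
    Tendsto (fun q : ℕ × ℝ => -(Real.log (Zpart d a q.2 q.1)) / q.1) (thermo d ρ) (𝓝 f)

/-- The relative free side of `N` spheres in the cube of side `L`: the `dN`-th root of the
probability that `N` independent uniform points of the cube have mutual distances at least `2a`. -/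
noncomputable def relSide (d : ℕ) (a : ℝ) (q : ℕ × ℝ) : ℝ :=
  (volume (Conf q.1 d (2 * a) (Box d q.2))).toReal ^ ((1:ℝ) / (q.1 * d : ℕ)) / q.2

/-- The free side `h(ρ)`: the lower thermodynamic limit of the relative free sides. Where the free
energy exists, `h = exp (-(f - (log ρ - 1)) / d)`. -/
noncomputable def freeSide (d : ℕ) (a ρ : ℝ) : ℝ :=
  liminf (relSide d a) (thermo d ρ)

/-- The close-packing density: the supremum of the densities at which the balls of radius `a` can
be placed without overlap, with centres in the cube, in all large cubes. -/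
noncomputable def closePacking (d : ℕ) (a : ℝ) : ℝ :=
  sSup {ρ | 0 < ρ ∧ ∀ᶠ L : ℝ in atTop, (Conf ⌈ρ * L ^ d⌉₊ d (2 * a) (Box d L)).Nonempty}

end Pool.Agent.K4H96.HS
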