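import Mathlib
import Pool.Agent.K4H96.HS.Cells

/-!
# Brunn-Minkowski inequality for monotone sums of permutation invariant sets
-/

set_option autoImplicit false

open MeasureTheory Set Filter Topology
open scoped ENNReal Pointwise

namespace Pool.Agent.K4H96.HS

variable {N d : ℕ}

theorem pin_cont (i j : Fin N) :
    Continuous (fun p : (Fin N → Fin d → ℝ) × (Fin N → Fin d → ℝ) => pin p.1 p.2 i j) := by
  unfold pin
  fun_prop

theorem pin_comm (x y : Fin N → Fin d → ℝ) (i j : Fin N) : pin x y i j = pin y x i j := by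
  unfold pin
  exact Finset.sum_congr rfl fun k _ => mul_comm _ _

theorem RS_compact (K E : Set (Fin N → Fin d → ℝ)) (hK : IsCompact K) (hE : IsCompact E)
    (δ : ℝ) : IsCompact (RS K E δ) := by
  have hbox : IsCompact {r : Fin N → Fin d → ℝ | ∀ i k, |r i k| ≤ δ} := by
    have : {r : Fin N → Fin d → ℝ | ∀ i k, |r i k| ≤ δ} =
        Set.pi univ (fun _ : Fin N => Set.pi univ (fun _ : Fin d => Icc (-δ) δ)) := by
      ext r
      simp only [mem_ofPred_eq, mem_univ_pi, mem_Icc, abs_le]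
    rw [this]
    exact isCompact_univ_pi fun i => isCompact_univ_pi fun k => isCompact_Icc
  have hcl : IsClosed {p : ((Fin N → Fin d → ℝ) × (Fin N → Fin d → ℝ)) × (Fin N → Fin d → ℝ) |
      ∀ i j, -δ ≤ pin p.1.1 p.1.2 i j} := by
    simp only [ofPred_forall]
    refine isClosed_iInter fun i => isClosed_iInter fun j => ?_
    exact isClosed_le continuous_const ((pin_cont i j).comp continuous_fst)
  have h1 : IsCompact ((((K ×ˢ E) ×ˢ {r : Fin N → Fin d → ℝ | ∀ i k, |r i k| ≤ δ}) ∩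
      {p | ∀ i j, -δ ≤ pin p.1.1 p.1.2 i j}) :
        Set (((Fin N → Fin d → ℝ) × (Fin N → Fin d → ℝ)) × (Fin N → Fin d → ℝ))) :=
    ((hK.prod hE).prod hbox).inter_right hcl
  have h2 : RS K E δ = (fun p : ((Fin N → Fin d → ℝ) × (Fin N → Fin d → ℝ)) ×
      (Fin N → Fin d → ℝ) => p.1.1 + p.1.2 + p.2) ''
      (((K ×ˢ E) ×ˢ {r : Fin N → Fin d → ℝ | ∀ i k, |r i k| ≤ δ}) ∩
      {p | ∀ i j, -δ ≤ pin p.1.1 p.1.2 i j}) := by
    ext z
    constructor
    · rintro ⟨x, hx, e, he, h, h'⟩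
      refine ⟨((x, e), z - x - e), ⟨⟨⟨hx, he⟩, fun i k => ?_⟩, h'⟩, ?_⟩
      · simpa using h i k
      · simp
    · rintro ⟨⟨⟨x, e⟩, r⟩, ⟨⟨⟨hx, he⟩, hr⟩, h'⟩, rfl⟩
      refine ⟨x, hx, e, he, fun i k => ?_, h'⟩
      have h3 := hr i k
      have h4 : (x + e + r) i k - x i k - e i k = r i k := by
        simp only [Pi.add_apply]
        ring
      show |(x + e + r) i k - x i k - e i k| ≤ δ
      rw [h4]
      exact h3
  rw [h2]
  refine h1.image ?_
  fun_prop

theorem RS_mono (K E : Set (Fin N → Fin d → ℝ)) {δ δ' : ℝ} (h : δ ≤ δ') :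
    RS K E δ ⊆ RS K E δ' := by
  rintro z ⟨x, hx, e, he, h1, h2⟩
  exact ⟨x, hx, e, he, fun i k => (h1 i k).trans h, fun i j => le_trans (by linarith) (h2 i j)⟩

theorem RS_comm (K E : Set (Fin N → Fin d → ℝ)) (δ : ℝ) : RS K E δ = RS E K δ := by
  ext z
  constructor
  · rintro ⟨x, hx, e, he, h1, h2⟩
    refine ⟨e, he, x, hx, fun i k => ?_, fun i j => by rw [pin_comm]; exact h2 i j⟩
    have := h1 i k
    rwa [sub_right_comm]
  · rintro ⟨x, hx, e, he, h1, h2⟩
    refine ⟨e, he, x, hx, fun i k => ?_, fun i j => by rw [pin_comm]; exact h2 i j⟩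
    have := h1 i k
    rwa [sub_right_comm]

theorem RS_iInter (K E : Set (Fin N → Fin d → ℝ)) (hK : IsCompact K) (hE : IsCompact E)
    (δ : ℕ → ℝ) (hδ : Antitone δ) (hδ0 : Tendsto δ atTop (𝓝 0)) (hpos : ∀ n, 0 ≤ δ n) :
    ⋂ n, RS K E (δ n) = RS K E 0 := by
  apply Subset.antisymm
  · intro z hz
    rw [mem_iInter] at hz
    let F : ℕ → Set ((Fin N → Fin d → ℝ) × (Fin N → Fin d → ℝ)) := fun n =>
      (K ×ˢ E) ∩ {p | (∀ i k, |z i k - p.1 i k - p.2 i k| ≤ δ n) ∧
        ∀ i j, -δ n ≤ pin p.1 p.2 i j}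
    have hFcl : ∀ n, IsClosed (F n) := by
      intro n
      refine (hK.isClosed.prod hE.isClosed).inter ?_
      simp only [ofPred_and, ofPred_forall]
      refine IsClosed.inter ?_ ?_
      · refine isClosed_iInter fun i => isClosed_iInter fun k => ?_
        exact isClosed_le (by fun_prop) continuous_const
      · refine isClosed_iInter fun i => isClosed_iInter fun j => ?_
        exact isClosed_le continuous_const (pin_cont i j)
    have hne := IsCompact.nonempty_iInter_of_sequence_nonempty_isCompact_isClosed F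
      (fun n p hp => ⟨hp.1, fun i k => (hp.2.1 i k).trans (hδ (Nat.le_succ n)),
        fun i j => le_trans (neg_le_neg (hδ (Nat.le_succ n))) (hp.2.2 i j)⟩)
      (fun n => by
        obtain ⟨x, hx, e, he, h1, h2⟩ := hz n
        exact ⟨(x, e), ⟨hx, he⟩, h1, h2⟩)
      ((hK.prod hE).of_isClosed_subset (hFcl 0) inter_subset_left) hFcl
    obtain ⟨⟨x, e⟩, hp⟩ := hne
    rw [mem_iInter] at hp
    refine ⟨x, (hp 0).1.1, e, (hp 0).1.2, fun i k => ?_, fun i j => ?_⟩
    · exact ge_of_tendsto hδ0 (Eventually.of_forall fun n => (hp n).2.1 i k)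
    · refine le_of_tendsto (x := atTop) (f := fun n => -δ n) ?_
        (Eventually.of_forall fun n => (hp n).2.2 i j)
      exact hδ0.neg
  · exact subset_iInter fun n => RS_mono K E (hpos n)

theorem exists_coord_bound (K : Set (Fin N → Fin d → ℝ)) (hK : IsCompact K) :
    ∃ B : ℝ, 0 ≤ B ∧ ∀ x ∈ K, ∀ i k, |x i k| ≤ B := by
  obtain ⟨B, hB⟩ := hK.isBounded.exists_norm_le
  refine ⟨max B 0, le_max_right _ _, fun x hx i k => ?_⟩
  have h1 := norm_le_pi_norm (x i) k
  have h2 := norm_le_pi_norm x i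
  have h3 := hB x hx
  rw [Real.norm_eq_abs] at h1
  exact ((h1.trans h2).trans h3).trans (le_max_left _ _)

theorem monotone_sum_pos (hN : 0 < N) (hd : 0 < d) (K E : Set (Fin N → Fin d → ℝ))
    (hK : IsCompact K) (hE : IsCompact E) (hKi : PermInv K) (hEi : PermInv E)
    (hEne : E.Nonempty) (a b : ℝ) (ha : 0 < a) (hb : 0 ≤ b)
    (hVK : a ^ (N * d) ≤ (volume : Measure (Fin N → Fin d → ℝ)).real K)
    (hVE : b ^ (N * d) ≤ (volume : Measure (Fin N → Fin d → ℝ)).real E) :
    (a + b) ^ (N * d) ≤ (volume : Measure (Fin N → Fin d → ℝ)).real (RS K E 0) := by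
  obtain ⟨B, hB0, hB⟩ := exists_coord_bound K hK
  obtain ⟨C, hC0, hC⟩ := exists_coord_bound E hE
  set D : ℝ := 1 + 2 * d * B with hD
  have hDpos : 0 < D := by rw [hD]; positivity
  let δ : ℕ → ℝ := fun n => (1 / ((n : ℝ) + 1)) * D
  have hδanti : Antitone δ := by
    intro m n hmn
    simp only [δ]
    gcongr
  have hδ0 : Tendsto δ atTop (𝓝 0) := by
    have := (tendsto_one_div_add_atTop_nhds_zero_nat (𝕜 := ℝ)).mul_const D
    rwa [zero_mul] at this
  have hδpos : ∀ n, 0 ≤ δ n := fun n => by simp only [δ]; positivity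
  have hκ : ∀ κ : ℝ, 0 < κ → κ < 1 → (a + κ * b) ^ (N * d) ≤
      (volume : Measure (Fin N → Fin d → ℝ)).real (RS K E 0) := by
    intro κ hκ0 hκ1
    have h1 : ∀ n, (a + κ * b) ^ (N * d) ≤
        (volume : Measure (Fin N → Fin d → ℝ)).real (RS K E (δ n)) := by
      intro n
      exact main_eps hN hd K E hK hKi hEi hEne B C hB hC a b κ (1 / ((n : ℝ) + 1)) ha hb hκ0 hκ1
        (by positivity) hVK hVE (RS_compact K E hK hE _).measure_ne_top
    have hlim := tendsto_measure_iInter_atTop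
      (μ := (volume : Measure (Fin N → Fin d → ℝ))) (s := fun n => RS K E (δ n))
      (fun n => (RS_compact K E hK hE _).measurableSet.nullMeasurableSet)
      (fun m n hmn => RS_mono K E (hδanti hmn))
      ⟨0, (RS_compact K E hK hE _).measure_ne_top⟩
    rw [RS_iInter K E hK hE δ hδanti hδ0 hδpos] at hlim
    have hlim2 := (ENNReal.tendsto_toReal (RS_compact K E hK hE 0).measure_ne_top).comp hlim
    exact ge_of_tendsto hlim2 (Eventually.of_forall h1)
  have hlim : Tendsto (fun n : ℕ => (a + (1 - 1 / ((n : ℝ) + 2)) * b) ^ (N * d)) atTop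
      (𝓝 ((a + (1 - 0) * b) ^ (N * d))) := by
    refine Tendsto.pow ?_ _
    refine tendsto_const_nhds.add (Tendsto.mul_const b (tendsto_const_nhds.sub ?_))
    have := (tendsto_add_atTop_iff_nat 1).mpr (tendsto_one_div_add_atTop_nhds_zero_nat (𝕜 := ℝ))
    refine this.congr fun n => ?_
    push_cast
    ring_nf
  rw [sub_zero, one_mul] at hlim
  refine le_of_tendsto hlim (Eventually.of_forall fun n => hκ _ ?_ ?_)
  · have : (1:ℝ) / ((n : ℝ) + 2) ≤ 1 / 2 := by
      gcongr
      linarith [Nat.cast_nonneg (α := ℝ) n]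
    linarith
  · have : (0:ℝ) < 1 / ((n : ℝ) + 2) := by positivity
    linarith

/-- **Brunn-Minkowski inequality for monotone sums** of two permutation invariant compact sets. -/
theorem monotone_sum (hN : 0 < N) (hd : 0 < d) (K E : Set (Fin N → Fin d → ℝ))
    (hK : IsCompact K) (hE : IsCompact E) (hKi : PermInv K) (hEi : PermInv E)
    (hKne : K.Nonempty) (hEne : E.Nonempty) (a b : ℝ) (ha : 0 ≤ a) (hb : 0 ≤ b)
    (hVK : a ^ (N * d) ≤ (volume : Measure (Fin N → Fin d → ℝ)).real K)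
    (hVE : b ^ (N * d) ≤ (volume : Measure (Fin N → Fin d → ℝ)).real E) :
    (a + b) ^ (N * d) ≤ (volume : Measure (Fin N → Fin d → ℝ)).real (RS K E 0) := by
  rcases ha.eq_or_lt with rfl | ha0
  · rcases hb.eq_or_lt with rfl | hb0
    · rw [add_zero, zero_pow (Nat.mul_pos hN hd).ne']
      exact measureReal_nonneg
    · rw [RS_comm, add_comm]
      exact monotone_sum_pos hN hd E K hE hK hEi hKi hKne b 0 hb0 le_rfl hVE hVK
  · exact monotone_sum_pos hN hd K E hK hE hKi hEi hEne a b ha0 hb hVK hVE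

end Pool.Agent.K4H96.HS
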