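import Mathlib
import Pool.Agent.K4H96.HS.Limit
import Pool.Agent.K4H96.HS.Defs

/-!
# Brunn-Minkowski inequality for the configuration spaces of hard spheres
-/

set_option autoImplicit false

open MeasureTheory Set Filter Topology
open scoped ENNReal Pointwise

namespace Pool.Agent.K4H96.HS

variable {N d : ℕ}

theorem conf_perm (r : ℝ) (Λ : Set (Fin d → ℝ)) : PermInv (Conf N d r Λ) := by
  rintro σ x ⟨h1, h2⟩
  exact ⟨fun i => h1 (σ i), fun i j hij => h2 (σ i) (σ j) (fun h => hij (σ.injective h))⟩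

theorem conf_compact (r : ℝ) (Λ : Set (Fin d → ℝ)) (hΛ : IsCompact Λ) :
    IsCompact (Conf N d r Λ) := by
  have h1 : Conf N d r Λ = Set.pi univ (fun _ : Fin N => Λ) ∩
      {x | ∀ i j, i ≠ j → r ^ 2 ≤ ∑ k, (x i k - x j k) ^ 2} := by
    ext x
    simp [Conf]
  rw [h1]
  refine (isCompact_univ_pi fun _ => hΛ).inter_right ?_
  simp only [ofPred_forall]
  refine isClosed_iInter fun i => isClosed_iInter fun j => isClosed_iInter fun _ => ?_
  exact isClosed_le continuous_const (by fun_prop)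

theorem RS_conf_subset (α β : ℝ) (Λ₁ Λ₂ : Set (Fin d → ℝ)) :
    RS (Conf N d α Λ₁) (Conf N d β Λ₂) 0 ⊆ Conf N d (Real.sqrt (α ^ 2 + β ^ 2)) (Λ₁ + Λ₂) := by
  rintro z ⟨x, hx, e, he, h1, h2⟩
  have hz : z = x + e := by
    funext i k
    have := abs_nonpos_iff.mp (h1 i k)
    simp only [Pi.add_apply]
    linarith
  subst hz
  refine ⟨fun i => Set.add_mem_add (hx.1 i) (he.1 i), fun i j hij => ?_⟩
  rw [Real.sq_sqrt (by positivity)]
  have h3 := hx.2 i j hij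
  have h4 := he.2 i j hij
  have h5 := h2 i j
  have h6 : ∑ k, ((x + e) i k - (x + e) j k) ^ 2 =
      ∑ k, (x i k - x j k) ^ 2 + ∑ k, (e i k - e j k) ^ 2 + 2 * pin x e i j := by
    unfold pin
    rw [Finset.mul_sum, ← Finset.sum_add_distrib, ← Finset.sum_add_distrib]
    refine Finset.sum_congr rfl fun k _ => ?_
    simp only [Pi.add_apply]
    ring
  rw [h6]
  linarith

/-- Brunn-Minkowski inequality for hard spheres, root-free form -/
theorem conf_bm_pow (hN : 0 < N) (hd : 0 < d) (α β : ℝ) (Λ₁ Λ₂ : Set (Fin d → ℝ))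
    (h₁ : IsCompact Λ₁) (h₂ : IsCompact Λ₂) (hne₁ : (Conf N d α Λ₁).Nonempty)
    (hne₂ : (Conf N d β Λ₂).Nonempty) (a b : ℝ) (ha : 0 ≤ a) (hb : 0 ≤ b)
    (hVK : a ^ (N * d) ≤ (volume (Conf N d α Λ₁)).toReal)
    (hVE : b ^ (N * d) ≤ (volume (Conf N d β Λ₂)).toReal) :
    (a + b) ^ (N * d) ≤
      (volume (Conf N d (Real.sqrt (α ^ 2 + β ^ 2)) (Λ₁ + Λ₂))).toReal := by
  have h := monotone_sum hN hd _ _ (conf_compact α Λ₁ h₁) (conf_compact β Λ₂ h₂)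
    (conf_perm α Λ₁) (conf_perm β Λ₂) hne₁ hne₂ a b ha hb hVK hVE
  refine h.trans (ENNReal.toReal_mono ?_ (measure_mono (RS_conf_subset α β Λ₁ Λ₂)))
  exact (conf_compact _ _ (h₁.add h₂)).measure_ne_top

theorem root_pow {m : ℕ} (hm : 0 < m) {v : ℝ} (hv : 0 ≤ v) : (v ^ ((1:ℝ) / (m : ℕ))) ^ m = v := by
  rw [one_div]
  exact Real.rpow_inv_natCast_pow hv hm.ne'

theorem le_root {m : ℕ} (hm : 0 < m) {t v : ℝ} (ht : 0 ≤ t) (h : t ^ m ≤ v) :
    t ≤ v ^ ((1:ℝ) / (m : ℕ)) := by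
  have hv : 0 ≤ v := le_trans (pow_nonneg ht m) h
  refine le_of_pow_le_pow_left₀ hm.ne' (Real.rpow_nonneg hv _) ?_
  rwa [root_pow hm hv]

/-- **Brunn-Minkowski inequality for hard spheres.** -/
theorem conf_bm (hN : 0 < N) (hd : 0 < d) (α β : ℝ) (Λ₁ Λ₂ : Set (Fin d → ℝ))
    (h₁ : IsCompact Λ₁) (h₂ : IsCompact Λ₂) (hne₁ : (Conf N d α Λ₁).Nonempty)
    (hne₂ : (Conf N d β Λ₂).Nonempty) :
    (volume (Conf N d α Λ₁)).toReal ^ ((1:ℝ) / (N * d : ℕ)) +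
      (volume (Conf N d β Λ₂)).toReal ^ ((1:ℝ) / (N * d : ℕ)) ≤
      (volume (Conf N d (Real.sqrt (α ^ 2 + β ^ 2)) (Λ₁ + Λ₂))).toReal ^
        ((1:ℝ) / (N * d : ℕ)) := by
  have hm : 0 < N * d := Nat.mul_pos hN hd
  refine le_root hm (by positivity) ?_
  exact conf_bm_pow hN hd α β Λ₁ Λ₂ h₁ h₂ hne₁ hne₂ _ _ (by positivity) (by positivity)
    (root_pow hm ENNReal.toReal_nonneg).le (root_pow hm ENNReal.toReal_nonneg).le

end Pool.Agent.K4H96.HS
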