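import Mathlib
import Pool.Agent.K4H96.HS.Hard

/-!
# Hard spheres in cubes: finite volume inequalities and the thermodynamic limit
-/

set_option autoImplicit false

open MeasureTheory Set Filter Topology
open scoped ENNReal Pointwise

namespace Pool.Agent.K4H96.HS

variable {N d : ℕ}

theorem conf_congr {r r' : ℝ} (h : r ^ 2 = r' ^ 2) (Λ : Set (Fin d → ℝ)) :
    Conf N d r Λ = Conf N d r' Λ := by
  unfold Conf
  rw [h]

theorem conf_mono (r : ℝ) {Λ Λ' : Set (Fin d → ℝ)} (h : Λ ⊆ Λ') :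
    Conf N d r Λ ⊆ Conf N d r Λ' := fun _ hx => ⟨fun i => h (hx.1 i), hx.2⟩

theorem box_compact (d : ℕ) (L : ℝ) : IsCompact (Box d L) := by
  have : Box d L = Set.pi univ (fun _ => Icc (0:ℝ) L) := by
    ext y
    simp only [Box, mem_ofPred_eq, mem_univ_pi]
  rw [this]
  exact isCompact_univ_pi fun _ => isCompact_Icc

theorem box_add (d : ℕ) (L M : ℝ) : Box d L + Box d M ⊆ Box d (L + M) := by
  rintro _ ⟨x, hx, y, hy, rfl⟩
  exact fun k => ⟨add_nonneg (hx k).1 (hy k).1, add_le_add (hx k).2 (hy k).2⟩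

theorem vol_conf_zero (L : ℝ) (hL : 0 ≤ L) :
    (volume (Conf N d 0 (Box d L))).toReal = L ^ (N * d) := by
  rw [← vol_cube (N := N) (d := d) (fun _ _ => 0) L hL]
  congr 1
  have : Conf N d 0 (Box d L) = {q | ∀ i k, (0:ℝ) ≤ q i k ∧ q i k ≤ 0 + L} := by
    ext q
    simp only [Conf, Box, mem_ofPred_eq, mem_Icc, zero_add]
    constructor
    · intro h
      exact h.1
    · intro h
      refine ⟨h, fun i j _ => ?_⟩
      rw [zero_pow two_ne_zero]
      positivity
  rw [this]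

theorem vol_conf_le (r L : ℝ) (hL : 0 ≤ L) :
    (volume (Conf N d r (Box d L))).toReal ≤ L ^ (N * d) := by
  rw [← vol_conf_zero (N := N) (d := d) L hL]
  refine ENNReal.toReal_mono (conf_compact _ _ (box_compact d L)).measure_ne_top
    (measure_mono ?_)
  rintro x ⟨h1, _⟩
  refine ⟨h1, fun i j _ => ?_⟩
  rw [zero_pow two_ne_zero]
  positivity

theorem conf_smul (c : ℝ) (hc : 0 < c) (r M : ℝ) :
    Conf N d (c * r) (Box d (c * M)) = c • Conf N d r (Box d M) := by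
  ext z
  rw [mem_smul_set_iff_inv_smul_mem₀ hc.ne']
  simp only [Conf, Box, mem_ofPred_eq, mem_Icc, Pi.smul_apply, smul_eq_mul]
  have hc' : 0 < c⁻¹ := inv_pos.mpr hc
  refine and_congr ?_ ?_
  · refine forall_congr' fun i => forall_congr' fun k => ?_
    refine and_congr ?_ ?_
    · constructor
      · intro h; positivity
      · intro h
        exact nonneg_of_mul_nonneg_right h hc'
    · rw [inv_mul_le_iff₀ hc]
  · refine forall_congr' fun i => forall_congr' fun j => forall_congr' fun _ => ?_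
    have h1 : ∑ k, (c⁻¹ * z i k - c⁻¹ * z j k) ^ 2 = (c ^ 2)⁻¹ * ∑ k, (z i k - z j k) ^ 2 := by
      rw [Finset.mul_sum]
      refine Finset.sum_congr rfl fun k _ => ?_
      field_simp
    rw [h1, le_inv_mul_iff₀ (by positivity), mul_pow]

theorem vol_conf_smul (c : ℝ) (hc : 0 < c) (r M : ℝ) :
    (volume (Conf N d (c * r) (Box d (c * M)))).toReal =
      c ^ (N * d) * (volume (Conf N d r (Box d M))).toReal := by
  rw [conf_smul c hc, Measure.addHaar_smul, ENNReal.toReal_mul]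
  congr 1
  have hfr : Module.finrank ℝ (Fin N → Fin d → ℝ) = N * d := by
    rw [Module.finrank_pi_fintype]
    simp
  rw [hfr, abs_of_pos (by positivity), ENNReal.toReal_ofReal (by positivity)]

/-- the `dN`-th root of the volume of the configuration space -/
noncomputable def rt (N d : ℕ) (r L : ℝ) : ℝ :=
  (volume (Conf N d r (Box d L))).toReal ^ ((1:ℝ) / (N * d : ℕ))

theorem rt_nonneg (r L : ℝ) : 0 ≤ rt N d r L := Real.rpow_nonneg ENNReal.toReal_nonneg _

theorem rt_pow (hN : 0 < N) (hd : 0 < d) (r L : ℝ) :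
    rt N d r L ^ (N * d) = (volume (Conf N d r (Box d L))).toReal :=
  root_pow (Nat.mul_pos hN hd) ENNReal.toReal_nonneg

theorem rt_le (hN : 0 < N) (hd : 0 < d) (r L : ℝ) (hL : 0 ≤ L) : rt N d r L ≤ L := by
  refine le_of_pow_le_pow_left₀ (Nat.mul_pos hN hd).ne' hL ?_
  rw [rt_pow hN hd]
  exact vol_conf_le r L hL

/-- the finite volume inequality in cubes -/
theorem rt_bm (hN : 0 < N) (hd : 0 < d) (r c₁ c₂ M₁ M₂ : ℝ) (hc₁ : 0 < c₁) (hc₂ : 0 < c₂)
    (hc : c₁ ^ 2 + c₂ ^ 2 = 1)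
    (hne₁ : (Conf N d r (Box d M₁)).Nonempty) (hne₂ : (Conf N d r (Box d M₂)).Nonempty) :
    c₁ * rt N d r M₁ + c₂ * rt N d r M₂ ≤ rt N d r (c₁ * M₁ + c₂ * M₂) := by
  have hm : 0 < N * d := Nat.mul_pos hN hd
  have h1 := conf_bm_pow hN hd (c₁ * r) (c₂ * r) (Box d (c₁ * M₁)) (Box d (c₂ * M₂))
    (box_compact _ _) (box_compact _ _) (by rw [conf_smul c₁ hc₁]; exact hne₁.smul_set)
    (by rw [conf_smul c₂ hc₂]; exact hne₂.smul_set) (c₁ * rt N d r M₁) (c₂ * rt N d r M₂)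
    (mul_nonneg hc₁.le (rt_nonneg _ _)) (mul_nonneg hc₂.le (rt_nonneg _ _))
    (by rw [vol_conf_smul c₁ hc₁, mul_pow, rt_pow hN hd])
    (by rw [vol_conf_smul c₂ hc₂, mul_pow, rt_pow hN hd])
  have h2 : Conf N d (Real.sqrt ((c₁ * r) ^ 2 + (c₂ * r) ^ 2)) (Box d (c₁ * M₁) + Box d (c₂ * M₂)) ⊆
      Conf N d r (Box d (c₁ * M₁ + c₂ * M₂)) := by
    rw [conf_congr (r' := r)]
    · exact conf_mono r (box_add _ _ _)
    · rw [Real.sq_sqrt (by positivity)]
      have : (c₁ * r) ^ 2 + (c₂ * r) ^ 2 = (c₁ ^ 2 + c₂ ^ 2) * r ^ 2 := by ring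
      rw [this, hc, one_mul]
  refine le_root hm (by have := rt_nonneg (N := N) (d := d) r M₁
                        have := rt_nonneg (N := N) (d := d) r M₂
                        positivity) (h1.trans ?_)
  exact ENNReal.toReal_mono (conf_compact _ _ (box_compact _ _)).measure_ne_top (measure_mono h2)

/-- the finite volume inequality, one summand without hard core -/
theorem rt_bm0 (hN : 0 < N) (hd : 0 < d) (r M s : ℝ) (hs : 0 ≤ s)
    (hne : (Conf N d r (Box d M)).Nonempty) :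
    s + rt N d r M ≤ rt N d r (s + M) := by
  have hm : 0 < N * d := Nat.mul_pos hN hd
  have hne0 : (Conf N d 0 (Box d s)).Nonempty :=
    ⟨fun _ _ => 0, fun _ _ => ⟨le_rfl, hs⟩, fun i j _ => by
      rw [zero_pow two_ne_zero]
      positivity⟩
  have h1 := conf_bm_pow hN hd 0 r (Box d s) (Box d M) (box_compact _ _) (box_compact _ _)
    hne0 hne s (rt N d r M) hs (rt_nonneg _ _) (vol_conf_zero s hs).ge (rt_pow hN hd _ _).le
  have h2 : Conf N d (Real.sqrt (0 ^ 2 + r ^ 2)) (Box d s + Box d M) ⊆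
      Conf N d r (Box d (s + M)) := by
    rw [conf_congr (r' := r)]
    · exact conf_mono r (box_add _ _ _)
    · rw [Real.sq_sqrt (by positivity)]
      ring
  refine le_root hm (by have := rt_nonneg (N := N) (d := d) r M
                        positivity) (h1.trans ?_)
  exact ENNReal.toReal_mono (conf_compact _ _ (box_compact _ _)).measure_ne_top (measure_mono h2)

/-! ### The thermodynamic limit -/

theorem relSide_eq (a : ℝ) (q : ℕ × ℝ) : relSide d a q = rt q.1 d (2 * a) q.2 / q.2 := rfl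

theorem thermo_fst (d : ℕ) (ρ : ℝ) : Tendsto (fun q : ℕ × ℝ => q.1) (thermo d ρ) atTop :=
  tendsto_fst.mono_left inf_le_left

theorem thermo_snd (d : ℕ) (ρ : ℝ) : Tendsto (fun q : ℕ × ℝ => q.2) (thermo d ρ) atTop :=
  tendsto_snd.mono_left inf_le_left

theorem thermo_dens (d : ℕ) (ρ : ℝ) :
    Tendsto (fun q : ℕ × ℝ => (q.1 : ℝ) / q.2 ^ d) (thermo d ρ) (𝓝 ρ) :=
  tendsto_comap.mono_left inf_le_right

theorem tendsto_thermo {α : Type*} {F : Filter α} {g : α → ℕ × ℝ} (d : ℕ) (ρ : ℝ)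
    (h1 : Tendsto (fun x => (g x).1) F atTop) (h2 : Tendsto (fun x => (g x).2) F atTop)
    (h3 : Tendsto (fun x => ((g x).1 : ℝ) / (g x).2 ^ d) F (𝓝 ρ)) :
    Tendsto g F (thermo d ρ) := by
  unfold thermo
  rw [tendsto_inf]
  exact ⟨h1.prodMk h2, tendsto_comap_iff.mpr h3⟩

theorem thermo_scale (d : ℕ) (ρ s : ℝ) (hs : 0 < s) :
    Tendsto (fun q : ℕ × ℝ => (q.1, s * q.2)) (thermo d ρ) (thermo d (ρ / s ^ d)) := by
  refine tendsto_thermo d _ (thermo_fst d ρ) ((thermo_snd d ρ).const_mul_atTop hs) ?_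
  have := (thermo_dens d ρ).div_const (s ^ d)
  refine this.congr fun q => ?_
  simp only
  rw [mul_pow, div_div, mul_comm]

theorem thermo_neBot (hd : 0 < d) (ρ : ℝ) (hρ : 0 < ρ) : (thermo d ρ).NeBot := by
  have h : Tendsto (fun n : ℕ => ((⌈ρ * (n:ℝ) ^ d⌉₊, (n:ℝ)) : ℕ × ℝ)) atTop (thermo d ρ) := by
    have hpow : Tendsto (fun n : ℕ => (n : ℝ) ^ d) atTop atTop :=
      (tendsto_pow_atTop hd.ne').comp tendsto_natCast_atTop_atTop
    refine tendsto_thermo d ρ ?_ tendsto_natCast_atTop_atTop ?_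
    · exact tendsto_nat_ceil_atTop.comp (hpow.const_mul_atTop hρ)
    · simp only
      have h1 : Tendsto (fun n : ℕ => ρ + 1 / (n : ℝ) ^ d) atTop (𝓝 (ρ + 0)) :=
        tendsto_const_nhds.add (hpow.const_div_atTop 1)
      rw [add_zero] at h1
      refine tendsto_of_tendsto_of_tendsto_of_le_of_le' (tendsto_const_nhds (x := ρ)) h1 ?_ ?_
      · filter_upwards [hpow.eventually_gt_atTop 0] with n hn
        rw [le_div_iff₀ hn]
        exact Nat.le_ceil _
      · filter_upwards [hpow.eventually_gt_atTop 0] with n hn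
        rw [div_le_iff₀ hn, add_mul, one_div, inv_mul_cancel₀ hn.ne']
        exact (Nat.ceil_lt_add_one (by positivity)).le
  exact h.neBot

theorem relSide_mem (hd : 0 < d) (a ρ : ℝ) :
    ∀ᶠ q in thermo d ρ, 0 < q.1 ∧ 0 < q.2 ∧ 0 ≤ relSide d a q ∧ relSide d a q ≤ 1 := by
  filter_upwards [(thermo_fst d ρ).eventually_gt_atTop 0, (thermo_snd d ρ).eventually_gt_atTop 0]
    with q h1 h2
  refine ⟨h1, h2, ?_, ?_⟩
  · rw [relSide_eq]
    exact div_nonneg (rt_nonneg _ _) h2.le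
  · rw [relSide_eq, div_le_one h2]
    exact rt_le h1 hd _ _ h2.le

theorem relSide_bdd_below (hd : 0 < d) (a ρ : ℝ) :
    (thermo d ρ).IsBoundedUnder (· ≥ ·) (relSide d a) :=
  ⟨0, by
    rw [eventually_map]
    filter_upwards [relSide_mem hd a ρ] with q hq
    exact hq.2.2.1⟩

theorem relSide_cobdd (hd : 0 < d) (a ρ : ℝ) (hρ : 0 < ρ) :
    (thermo d ρ).IsCoboundedUnder (· ≥ ·) (relSide d a) := by
  have := thermo_neBot hd ρ hρ
  refine Filter.IsBoundedUnder.isCoboundedUnder_ge ?_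
  exact ⟨1, by
    rw [eventually_map]
    filter_upwards [relSide_mem hd a ρ] with q hq
    exact hq.2.2.2⟩

theorem freeSide_mem (hd : 0 < d) (a ρ : ℝ) (hρ : 0 < ρ) :
    0 ≤ freeSide d a ρ ∧ freeSide d a ρ ≤ 1 := by
  have := thermo_neBot hd ρ hρ
  constructor
  · refine le_liminf_of_le (relSide_cobdd hd a ρ hρ) ?_
    filter_upwards [relSide_mem hd a ρ] with q hq
    exact hq.2.2.1
  · refine liminf_le_of_le (relSide_bdd_below hd a ρ) fun b hb => ?_
    obtain ⟨q, h1, h2⟩ := (hb.and (relSide_mem hd a ρ)).exists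
    exact h1.trans h2.2.2.2

theorem le_freeSide (hd : 0 < d) (a ρ : ℝ) (hρ : 0 < ρ) (t : ℝ)
    (h : ∀ ε > 0, ∀ᶠ q in thermo d ρ, t - ε ≤ relSide d a q) : t ≤ freeSide d a ρ := by
  refine le_of_forall_pos_sub_le fun ε hε => ?_
  exact le_liminf_of_le (relSide_cobdd hd a ρ hρ) (h ε hε)

theorem freeSide_ev (hd : 0 < d) (a ρ : ℝ) (ε : ℝ) (hε : 0 < ε) :
    ∀ᶠ q in thermo d ρ, freeSide d a ρ - ε ≤ relSide d a q := by
  have h : freeSide d a ρ - ε < liminf (relSide d a) (thermo d ρ) := by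
    change freeSide d a ρ - ε < freeSide d a ρ
    linarith
  filter_upwards [eventually_lt_of_lt_liminf h (relSide_bdd_below hd a ρ)] with q hq
  exact hq.le

/-- configurations exist at the density `ρ` in all large cubes -/
def Feasible (d : ℕ) (a ρ : ℝ) : Prop :=
  ∀ᶠ q in thermo d ρ, (Conf q.1 d (2 * a) (Box d q.2)).Nonempty

theorem feasible_of_pos (hd : 0 < d) (a ρ : ℝ) (h : 0 < freeSide d a ρ) : Feasible d a ρ := by
  filter_upwards [freeSide_ev hd a ρ (freeSide d a ρ / 2) (by linarith), relSide_mem hd a ρ]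
    with q hq hm
  rw [Set.nonempty_iff_ne_empty]
  intro hemp
  have h1 : relSide d a q = 0 := by
    unfold relSide
    rw [hemp, measure_empty, ENNReal.toReal_zero, Real.zero_rpow, zero_div]
    have : (0:ℝ) < ((q.1 * d : ℕ) : ℝ) := by exact_mod_cast Nat.mul_pos hm.1 hd
    positivity
  rw [h1] at hq
  linarith

/-- monotone quotient: comparison of two densities -/
theorem freeSide_quot (hd : 0 < d) (a w u : ℝ) (hw : 0 < w) (hwu : w ≤ u)
    (hf : Feasible d a (u ^ d)) :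
    1 - w / u * (1 - freeSide d a (u ^ d)) ≤ freeSide d a (w ^ d) := by
  have hu : 0 < u := lt_of_lt_of_le hw hwu
  set s : ℝ := w / u with hs
  have hs0 : 0 < s := div_pos hw hu
  have hs1 : s ≤ 1 := (div_le_one hu).mpr hwu
  have hsc := thermo_scale d (w ^ d) s hs0
  have e1 : w ^ d / s ^ d = u ^ d := by
    rw [hs, div_pow]
    field_simp
  rw [e1] at hsc
  refine le_freeSide hd a (w ^ d) (by positivity) _ fun ε hε => ?_
  filter_upwards [hsc.eventually hf, hsc.eventually (freeSide_ev hd a (u ^ d) ε hε),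
    relSide_mem hd a (w ^ d)] with q h1 h2 h3
  have hL := h3.2.1
  have h4 := rt_bm0 (N := q.1) h3.1 hd (2 * a) (s * q.2) ((1 - s) * q.2)
    (mul_nonneg (by linarith) hL.le) h1
  have e2 : (1 - s) * q.2 + s * q.2 = q.2 := by ring
  rw [e2] at h4
  rw [relSide_eq] at h2 ⊢
  rw [le_div_iff₀ hL]
  rw [le_div_iff₀ (by positivity)] at h2
  have h5 : s * ε ≤ ε := by nlinarith
  nlinarith

/-- general comparison of three densities -/
theorem freeSide_bm (hd : 0 < d) (a u₁ u₂ s : ℝ) (hu₁ : 0 < u₁) (hu₂ : 0 < u₂) (hs0 : 0 < s)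
    (hs1 : s < 1) (hf₁ : Feasible d a (u₁ ^ d)) (hf₂ : Feasible d a (u₂ ^ d)) :
    s * freeSide d a (u₁ ^ d) + (1 - s) * freeSide d a (u₂ ^ d) ≤
      freeSide d a (Real.sqrt ((s * u₁) ^ 2 + ((1 - s) * u₂) ^ 2) ^ d) := by
  set w : ℝ := Real.sqrt ((s * u₁) ^ 2 + ((1 - s) * u₂) ^ 2) with hw
  have h1s : 0 < 1 - s := by linarith
  have hw2 : w ^ 2 = (s * u₁) ^ 2 + ((1 - s) * u₂) ^ 2 := Real.sq_sqrt (by positivity)
  have hw0 : 0 < w := Real.sqrt_pos.mpr (by positivity)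
  have ht₁ : 0 < w / u₁ := by positivity
  have ht₂ : 0 < w / u₂ := by positivity
  have hsc₁ := thermo_scale d (w ^ d) (w / u₁) ht₁
  have hsc₂ := thermo_scale d (w ^ d) (w / u₂) ht₂
  have e₁ : w ^ d / (w / u₁) ^ d = u₁ ^ d := by
    rw [div_pow]
    field_simp
  have e₂ : w ^ d / (w / u₂) ^ d = u₂ ^ d := by
    rw [div_pow]
    field_simp
  rw [e₁] at hsc₁
  rw [e₂] at hsc₂
  refine le_freeSide hd a (w ^ d) (by positivity) _ fun ε hε => ?_
  filter_upwards [hsc₁.eventually hf₁, hsc₁.eventually (freeSide_ev hd a (u₁ ^ d) ε hε),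
    hsc₂.eventually hf₂, hsc₂.eventually (freeSide_ev hd a (u₂ ^ d) ε hε),
    relSide_mem hd a (w ^ d)] with q h1 h2 h3 h4 h5
  have hL := h5.2.1
  have h6 := rt_bm (N := q.1) h5.1 hd (2 * a) (s * u₁ / w) ((1 - s) * u₂ / w) (w / u₁ * q.2)
    (w / u₂ * q.2) (by positivity) (by positivity)
    (by
      have : (s * u₁ / w) ^ 2 + ((1 - s) * u₂ / w) ^ 2 =
        ((s * u₁) ^ 2 + ((1 - s) * u₂) ^ 2) / w ^ 2 := by ring
      rw [this, hw2, div_self]
      positivity) h1 h3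
  have e3 : s * u₁ / w * (w / u₁ * q.2) + (1 - s) * u₂ / w * (w / u₂ * q.2) = q.2 := by
    field_simp
    ring
  rw [e3] at h6
  rw [relSide_eq] at h2 h4 ⊢
  rw [le_div_iff₀ hL]
  rw [le_div_iff₀ (by positivity)] at h2 h4
  have h7 : s * ((freeSide d a (u₁ ^ d) - ε) * q.2) ≤
      s * u₁ / w * rt q.1 d (2 * a) (w / u₁ * q.2) := by
    have : s * u₁ / w * ((freeSide d a (u₁ ^ d) - ε) * (w / u₁ * q.2)) =
        s * ((freeSide d a (u₁ ^ d) - ε) * q.2) := by
      field_simp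
    rw [← this]
    gcongr
  have h8 : (1 - s) * ((freeSide d a (u₂ ^ d) - ε) * q.2) ≤
      (1 - s) * u₂ / w * rt q.1 d (2 * a) (w / u₂ * q.2) := by
    have : (1 - s) * u₂ / w * ((freeSide d a (u₂ ^ d) - ε) * (w / u₂ * q.2)) =
        (1 - s) * ((freeSide d a (u₂ ^ d) - ε) * q.2) := by
      field_simp
    rw [← this]
    gcongr
  nlinarith

end Pool.Agent.K4H96.HS
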