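import Mathlib
import Pool.Agent.K4H96.HS.Thermo

/-!
# Hard spheres: free energy and free side, close packing, first-order transitions
-/

set_option autoImplicit false

open MeasureTheory Set Filter Topology
open scoped ENNReal Pointwise

namespace Pool.Agent.K4H96.HS

variable {N d : ℕ}

/-- Stirling to leading order -/
theorem tendsto_log_factorial :
    Tendsto (fun n : ℕ => Real.log (Nat.factorial n : ℝ) / n - Real.log n) atTop (𝓝 (-1)) := by
  have h1 : Tendsto (fun n : ℕ => Real.log (Stirling.stirlingSeq n) / n) atTop (𝓝 0) := by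
    have h2 : Tendsto (fun n : ℕ => Real.log (Stirling.stirlingSeq n)) atTop
        (𝓝 (Real.log (Real.sqrt Real.pi))) :=
      Stirling.tendsto_stirlingSeq_sqrt_pi.log (Real.sqrt_pos.mpr Real.pi_pos).ne'
    exact h2.div_atTop tendsto_natCast_atTop_atTop
  have h2 : Tendsto (fun n : ℕ => 1 / 2 * (Real.log (2 * n) / n)) atTop (𝓝 0) := by
    have h3 : Tendsto (fun x : ℝ => Real.log x / x) atTop (𝓝 0) := by
      have := Real.isLittleO_log_id_atTop.tendsto_div_nhds_zero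
      simpa using this
    have h4 : Tendsto (fun n : ℕ => 2 * (n : ℝ)) atTop atTop :=
      tendsto_natCast_atTop_atTop.const_mul_atTop (by norm_num)
    have h5 := h3.comp h4
    refine h5.congr' ?_ |>.trans_eq ?_
    · filter_upwards [eventually_gt_atTop 0] with n hn
      have : (n : ℝ) ≠ 0 := by exact_mod_cast hn.ne'
      simp only [Function.comp]
      field_simp
    · rfl
  have h3 : Tendsto (fun n : ℕ => Real.log (Stirling.stirlingSeq n) / n +
      1 / 2 * (Real.log (2 * n) / n) - 1) atTop (𝓝 (0 + 0 - 1)) := (h1.add h2).sub_const 1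
  rw [zero_add, zero_sub] at h3
  refine h3.congr' ?_
  filter_upwards [eventually_gt_atTop 0] with n hn
  have hn' : (n : ℝ) ≠ 0 := by exact_mod_cast hn.ne'
  have hf := Stirling.log_stirlingSeq_formula n
  have h5 : Real.log ((n : ℝ) / Real.exp 1) = Real.log n - 1 := by
    rw [Real.log_div hn' (Real.exp_ne_zero 1), Real.log_exp]
  rw [h5] at hf
  rw [hf]
  field_simp
  ring

/-- Where the free energy exists, the free side is `exp (-(f - (log ρ - 1)) / d)`. -/
theorem freeSide_of_isFreeEnergy (hd : 0 < d) (a ρ f : ℝ) (hρ : 0 < ρ)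
    (h : IsFreeEnergy d a ρ f) :
    freeSide d a ρ = Real.exp (-(f - (Real.log ρ - 1)) / d) := by
  have := thermo_neBot hd ρ hρ
  have hd' : (0:ℝ) < d := by exact_mod_cast hd
  refine Tendsto.liminf_eq ?_
  have h1 : Tendsto (fun q : ℕ × ℝ => Real.log (Nat.factorial q.1 : ℝ) / q.1 - Real.log q.1)
      (thermo d ρ) (𝓝 (-1)) := tendsto_log_factorial.comp (thermo_fst d ρ)
  have h2 : Tendsto (fun q : ℕ × ℝ => Real.log ((q.1 : ℝ) / q.2 ^ d)) (thermo d ρ)
      (𝓝 (Real.log ρ)) := (thermo_dens d ρ).log hρ.ne'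
  have h3 := ((h1.add h2).sub h.2).div_const (d : ℝ)
  have h4 := (Real.continuous_exp.tendsto _).comp h3
  have e1 : Real.exp ((-1 + Real.log ρ - f) / d) = Real.exp (-(f - (Real.log ρ - 1)) / d) := by
    congr 2
    ring
  rw [e1] at h4
  refine h4.congr' ?_
  filter_upwards [h.1, relSide_mem hd a ρ] with q hq hm
  have hN : (0:ℝ) < q.1 := by exact_mod_cast hm.1
  have hL : 0 < q.2 := hm.2.1
  simp only [Function.comp]
  have hfac : (0:ℝ) < (Nat.factorial q.1 : ℝ) := by positivity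
  set v : ℝ := (volume (Conf q.1 d (2 * a) (Box d q.2))).toReal with hv
  have hZ : Zpart d a q.2 q.1 = ((Nat.factorial q.1 : ℝ))⁻¹ * v := rfl
  have hvpos : 0 < v := by
    rw [hZ] at hq
    by_contra hcon
    push Not at hcon
    have : ((Nat.factorial q.1 : ℝ))⁻¹ * v ≤ 0 :=
      mul_nonpos_of_nonneg_of_nonpos (inv_pos.mpr hfac).le hcon
    linarith
  have hrel : relSide d a q = v ^ ((1:ℝ) / (q.1 * d : ℕ)) / q.2 := rfl
  have hrpos : 0 < relSide d a q := by
    rw [hrel]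
    positivity
  rw [← Real.exp_log hrpos]
  congr 1
  rw [hrel, hZ, Real.log_div (by positivity) hL.ne', Real.log_rpow hvpos,
    Real.log_mul (inv_pos.mpr hfac).ne' hvpos.ne', Real.log_inv,
    Real.log_div hN.ne' (by positivity), Real.log_pow]
  push_cast
  field_simp
  ring

theorem feasible_of_lt (hd : 0 < d) (a ρ : ℝ) (hρ : 0 < ρ) (h : ρ < closePacking d a) :
    Feasible d a ρ := by
  have hne : {ρ : ℝ | 0 < ρ ∧ ∀ᶠ L : ℝ in atTop,
      (Conf ⌈ρ * L ^ d⌉₊ d (2 * a) (Box d L)).Nonempty}.Nonempty := by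
    rw [Set.nonempty_iff_ne_empty]
    intro hemp
    unfold closePacking at h
    rw [hemp, Real.sSup_empty] at h
    linarith
  obtain ⟨ρ', ⟨_, hρ'⟩, hlt⟩ := exists_lt_of_lt_csSup hne h
  filter_upwards [(thermo_snd d ρ).eventually hρ', (thermo_dens d ρ).eventually_lt_const hlt,
    relSide_mem hd a ρ] with q h1 h2 h3
  have hL := h3.2.1
  rw [div_lt_iff₀ (by positivity)] at h2
  have h4 : q.1 ≤ ⌈ρ' * q.2 ^ d⌉₊ := by
    have h5 : (q.1 : ℝ) ≤ (⌈ρ' * q.2 ^ d⌉₊ : ℝ) := h2.le.trans (Nat.le_ceil _)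
    exact_mod_cast h5
  obtain ⟨x, hx1, hx2⟩ := h1
  refine ⟨fun i => x (Fin.castLE h4 i), fun i => hx1 _, fun i j hij => hx2 _ _ ?_⟩
  intro h6
  exact hij (Fin.castLE_injective h4 h6)

/-- the free side near close packing -/
theorem freeSide_packing (hd : 0 < d) (a w : ℝ) (hw : 0 < w) (h : w ^ d < closePacking d a) :
    1 - w / closePacking d a ^ ((1:ℝ) / (d : ℕ)) ≤ freeSide d a (w ^ d) := by
  set ρ₀ := closePacking d a with hρ₀
  have hρ₀pos : 0 < ρ₀ := lt_trans (by positivity) h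
  set u₀ : ℝ := ρ₀ ^ ((1:ℝ) / (d : ℕ)) with hu₀
  have hu₀d : u₀ ^ d = ρ₀ := root_pow hd hρ₀pos.le
  have hu₀pos : 0 < u₀ := Real.rpow_pos_of_pos hρ₀pos _
  have hwu : w < u₀ := by
    rw [← hu₀d] at h
    exact lt_of_pow_lt_pow_left₀ d hu₀pos.le h
  have h1 : ∀ u, w < u → u < u₀ → 1 - w / u ≤ freeSide d a (w ^ d) := by
    intro u hwu' huu
    have hu : 0 < u := hw.trans hwu'
    have h2 : u ^ d < ρ₀ := by
      rw [← hu₀d]
      exact pow_lt_pow_left₀ huu hu.le hd.ne'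
    have h3 := freeSide_quot hd a w u hw hwu'.le (feasible_of_lt hd a _ (by positivity) h2)
    have h4 := (freeSide_mem hd a (u ^ d) (by positivity)).1
    have h5 : 0 < w / u := div_pos hw hu
    nlinarith
  have h2 : Tendsto (fun u : ℝ => 1 - w / u) (𝓝[<] u₀) (𝓝 (1 - w / u₀)) := by
    refine Tendsto.mono_left ?_ nhdsWithin_le_nhds
    exact tendsto_const_nhds.sub (tendsto_const_nhds.div tendsto_id hu₀pos.ne')
  refine le_of_tendsto h2 ?_
  filter_upwards [Ioo_mem_nhdsLT hwu] with u hu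
  exact h1 u hu.1 hu.2

/-- The pressure inequality at a density where `f` has a left derivative. -/
theorem pressure_ineq (hd : 0 < d) (a ρ f' : ℝ) (f : ℝ → ℝ) (hρ : 0 < ρ)
    (hf : ∀ᶠ r in 𝓝[≤] ρ, IsFreeEnergy d a r (f r)) (hder : HasDerivWithinAt f f' (Iic ρ) ρ) :
    Real.exp ((f ρ - (Real.log ρ - 1)) / d) ≤ ρ * f' := by
  have hd' : (0:ℝ) < d := by exact_mod_cast hd
  have hρf : IsFreeEnergy d a ρ (f ρ) := hf.self_of_nhdsWithin (mem_Iic.mpr le_rfl)
  -- the function `g = (1 - h) / ρ^(1/d)` in terms of f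
  set g : ℝ → ℝ := fun r => r ^ (-(1:ℝ) / d) - Real.exp (-(f r + 1) / d) with hg
  have hh : ∀ r, 0 < r → IsFreeEnergy d a r (f r) →
      g r = (1 - freeSide d a r) / r ^ ((1:ℝ) / d) := by
    intro r hr hfr
    rw [freeSide_of_isFreeEnergy hd a r (f r) hr hfr]
    simp only [hg]
    have e1 : Real.exp (-(f r - (Real.log r - 1)) / d) =
        Real.exp (-(f r + 1) / d) * r ^ ((1:ℝ) / d) := by
      rw [Real.rpow_def_of_pos hr, ← Real.exp_add]
      congr 1
      ring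
    rw [e1, neg_div, Real.rpow_neg hr.le]
    have : 0 < r ^ ((1:ℝ) / d) := Real.rpow_pos_of_pos hr _
    field_simp
  have hmono : ∀ᶠ r in 𝓝[≤] ρ, g r ≤ g ρ := by
    filter_upwards [hf, mem_nhdsWithin_of_mem_nhds (Ioi_mem_nhds hρ), self_mem_nhdsWithin]
      with r hfr hr0 hr1
    have hr0 : 0 < r := hr0
    have hr1 : r ≤ ρ := hr1
    rw [hh r hr0 hfr, hh ρ hρ hρf]
    set w := r ^ ((1:ℝ) / (d : ℕ)) with hw
    set u := ρ ^ ((1:ℝ) / (d : ℕ)) with hu
    have hwd : w ^ d = r := root_pow hd hr0.le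
    have hud : u ^ d = ρ := root_pow hd hρ.le
    have hw0 : 0 < w := Real.rpow_pos_of_pos hr0 _
    have hu0 : 0 < u := Real.rpow_pos_of_pos hρ _
    have hwu : w ≤ u := Real.rpow_le_rpow hr0.le hr1 (by positivity)
    have hpos : 0 < freeSide d a ρ := by
      rw [freeSide_of_isFreeEnergy hd a ρ (f ρ) hρ hρf]
      exact Real.exp_pos _
    have hq := freeSide_quot hd a w u hw0 hwu (by rw [hud]; exact feasible_of_pos hd a ρ hpos)
    rw [hwd, hud] at hq
    rw [div_le_div_iff₀ hw0 hu0]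
    have h5 : (1 - freeSide d a r) ≤ w / u * (1 - freeSide d a ρ) := by linarith
    calc (1 - freeSide d a r) * u ≤ (w / u * (1 - freeSide d a ρ)) * u := by gcongr
      _ = (1 - freeSide d a ρ) * w := by field_simp
  have hgder : HasDerivWithinAt g (-(1:ℝ) / d * ρ ^ (-(1:ℝ) / d - 1) -
      Real.exp (-(f ρ + 1) / d) * (-f' / d)) (Iic ρ) ρ := by
    refine HasDerivWithinAt.sub ?_ ?_
    · exact (Real.hasDerivAt_rpow_const (Or.inl hρ.ne')).hasDerivWithinAt
    · refine HasDerivWithinAt.exp ?_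
      exact ((hder.add_const 1).neg).div_const _
  have hnonneg : 0 ≤ -(1:ℝ) / d * ρ ^ (-(1:ℝ) / d - 1) -
      Real.exp (-(f ρ + 1) / d) * (-f' / d) := by
    rw [hasDerivWithinAt_iff_tendsto_slope] at hgder
    have hset : Iic ρ \ {ρ} = Iio ρ := by
      ext x
      simp [lt_iff_le_and_ne]
    rw [hset] at hgder
    refine ge_of_tendsto hgder ?_
    have hmono' : ∀ᶠ r in 𝓝[<] ρ, g r ≤ g ρ :=
      hmono.filter_mono (nhdsWithin_mono ρ Iio_subset_Iic_self)
    filter_upwards [hmono', self_mem_nhdsWithin] with r h1 h2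
    have h2 : r < ρ := h2
    rw [slope_def_field]
    exact div_nonneg_of_nonpos (by linarith) (by linarith)
  have e2 : ρ ^ (-(1:ℝ) / d - 1) = Real.exp (-(Real.log ρ) / d) / ρ := by
    rw [Real.rpow_sub_one hρ.ne', Real.rpow_def_of_pos hρ]
    congr 2
    ring
  rw [e2] at hnonneg
  have h6 : Real.exp (-(Real.log ρ) / d) / ρ ≤ Real.exp (-(f ρ + 1) / d) * f' := by
    have h7 : -(1:ℝ) / d * (Real.exp (-(Real.log ρ) / d) / ρ) -
        Real.exp (-(f ρ + 1) / d) * (-f' / d) =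
        (Real.exp (-(f ρ + 1) / d) * f' - Real.exp (-(Real.log ρ) / d) / ρ) / d := by
      ring
    rw [h7] at hnonneg
    have h8 : 0 ≤ Real.exp (-(f ρ + 1) / d) * f' - Real.exp (-(Real.log ρ) / d) / ρ := by
      have := mul_nonneg hnonneg hd'.le
      rwa [div_mul_cancel₀ _ hd'.ne'] at this
    linarith
  rw [div_le_iff₀ hρ] at h6
  have e3 : Real.exp ((f ρ - (Real.log ρ - 1)) / d) =
      Real.exp ((f ρ + 1) / d) * Real.exp (-(Real.log ρ) / d) := by
    rw [← Real.exp_add]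
    congr 1
    ring
  rw [e3]
  calc Real.exp ((f ρ + 1) / d) * Real.exp (-(Real.log ρ) / d)
      ≤ Real.exp ((f ρ + 1) / d) * (Real.exp (-(f ρ + 1) / d) * f' * ρ) := by gcongr
    _ = (Real.exp ((f ρ + 1) / d) * Real.exp (-(f ρ + 1) / d)) * (ρ * f') := by ring
    _ = ρ * f' := by
        rw [← Real.exp_add]
        have : (f ρ + 1) / d + -(f ρ + 1) / d = 0 := by ring
        rw [this, Real.exp_zero, one_mul]

/-- The jump of the entropy at a first-order transition. -/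
theorem jump_ineq (hd : 0 < d) (a ρ₁ ρ₂ p c : ℝ) (h₁ : 0 < ρ₁) (h₁₂ : ρ₁ < ρ₂)
    (hf : ∀ r ∈ Icc ρ₁ ρ₂, IsFreeEnergy d a r (c - p / r)) :
    0 ≤ (c - p / ρ₁) - (Real.log ρ₁ - 1) ∧ 0 < p ∧
    p * (1 / ρ₁ - 1 / ρ₂) + (d - 1) * Real.log (ρ₂ / ρ₁) + ((c - p / ρ₁) - (Real.log ρ₁ - 1)) ≤
      d * Real.log (p / ρ₁) := by
  have h₂ : 0 < ρ₂ := h₁.trans h₁₂
  have hd' : (0:ℝ) < d := by exact_mod_cast hd
  have hφ : 0 ≤ (c - p / ρ₁) - (Real.log ρ₁ - 1) := by
    have h3 := freeSide_of_isFreeEnergy hd a ρ₁ _ h₁ (hf ρ₁ ⟨le_rfl, h₁₂.le⟩)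
    have h4 := (freeSide_mem hd a ρ₁ h₁).2
    rw [h3, Real.exp_le_one_iff, neg_div, neg_nonpos] at h4
    have := mul_nonneg h4 hd'.le
    rwa [div_mul_cancel₀ _ hd'.ne'] at this
  have hpr := pressure_ineq hd a ρ₂ (p / ρ₂ ^ 2) (fun r => c - p / r) h₂ ?_ ?_
  · have hpos : 0 < ρ₂ * (p / ρ₂ ^ 2) := lt_of_lt_of_le (Real.exp_pos _) hpr
    have e1 : ρ₂ * (p / ρ₂ ^ 2) = p / ρ₂ := by field_simp
    rw [e1] at hpr hpos
    have hp : 0 < p := by
      have := mul_pos hpos h₂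
      rwa [div_mul_cancel₀ _ h₂.ne'] at this
    refine ⟨hφ, hp, ?_⟩
    have h5 := (Real.le_log_iff_exp_le hpos).mpr hpr
    rw [div_le_iff₀ hd'] at h5
    rw [Real.log_div hp.ne' h₂.ne'] at h5
    rw [Real.log_div hp.ne' h₁.ne', Real.log_div h₂.ne' h₁.ne']
    have e2 : p * (1 / ρ₁ - 1 / ρ₂) = p / ρ₁ - p / ρ₂ := by ring
    rw [e2]
    nlinarith [h5]
  · filter_upwards [mem_nhdsWithin_of_mem_nhds (Ioi_mem_nhds h₁₂), self_mem_nhdsWithin]
      with r hr1 hr2
    exact hf r ⟨le_of_lt hr1, hr2⟩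
  · have h6 : HasDerivAt (fun r : ℝ => c - p / r) (p / ρ₂ ^ 2) ρ₂ := by
      have h7 := ((hasDerivAt_inv h₂.ne').const_mul p).const_sub c
      have e3 : -(p * -(ρ₂ ^ 2)⁻¹) = p / ρ₂ ^ 2 := by ring
      rw [e3] at h7
      simpa [div_eq_mul_inv] using h7
    exact h6.hasDerivWithinAt

end Pool.Agent.K4H96.HS
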